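import Pool.Agent.X26.MC.Tup

/-!
# Chen's theorem for several admissible sets, in all patterns with the same differences
-/

set_option autoImplicit false

namespace Pool.Agent.X26.MC

open Finset Filter
open Pool.Agent.Y843.AC.HL (Tup gg ZT nu Adm Tp Rough Sing loc Ch Ch_rough Ch_sub chen_low Alm gg_pos)
open Pool.Agent.X26.GP (TF)

theorem Alm_mono {j j' : ℕ} {w w' : ℝ} {k : ℤ} (hj : j ≤ j') (hw : w' ≤ w) (h : Alm j w k) : Alm j' w' k :=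
  ⟨h.1, h.2.1.trans hj, fun q hq hd => lt_of_le_of_lt hw (h.2.2 q hq hd)⟩

theorem Ch_mono {j j' x : ℕ} (hj1 : 1 ≤ j) (hj : j ≤ j') (hx : 1 ≤ x) (T : Finset ℤ) (h₀ : ℤ) (y₁ y₂ : ℕ) :
    Ch j x T h₀ y₁ y₂ ⊆ Ch j' x T h₀ y₁ y₂ := by
  classical
  intro n hn
  unfold Ch at hn ⊢
  rw [mem_filter] at hn ⊢
  refine ⟨hn.1, hn.2.1, hn.2.2.1, fun t ht => Alm_mono hj ?_ (hn.2.2.2 t ht)⟩
  have h1 : (0 : ℝ) < j := by exact_mod_cast hj1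
  exact Real.rpow_le_rpow_of_exponent_le (by exact_mod_cast hx) (one_div_le_one_div_of_le h1 (by exact_mod_cast hj))

/-- **Chen's theorem for several tuples, common patterns** -/
theorem chenM (M : ℕ) (r : Fin M → ℕ) : ∃ j : ℕ, 1 ≤ j ∧ ∀ m k : ℕ, ∃ c : ℝ, 0 < c ∧ ∃ B : ℕ, ∀ θ : ℝ, 0 < θ →
    ∃ x₀ : ℕ, ∀ x : ℕ, x₀ ≤ x → ∀ T : Fin M → Finset ℤ, (∀ i, Tup (r i) x (T i)) → (∀ i, (0 : ℤ) ∈ T i) →
      ∀ h : Fin M → ℤ, (∀ i, h i ∈ T i) → (∀ i, h i ≠ 0) → ∀ (y : Fin M → ℕ) (X D : ℕ), (∀ i, y i + X ≤ x) →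
      X ≤ x → θ * x ≤ X → Real.log x ^ B ≤ D → D ≤ X →
      ∃ G ⊆ Fintype.piFinset (fun _ : Fin m => Icc 1 D), c * (D : ℝ) ^ m ≤ (G.card : ℝ) ∧ ∀ d ∈ G,
        ∀ F : Finset (Fin m → ℕ), (∀ f ∈ F, ∀ i, f i < k) → (fun _ => 0) ∈ F → ∀ i,
        (TF (T i) d F).card = r i * F.card ∧ Adm (TF (T i) d F) ∧
        c * (X * gg (TF (T i) d F) x) ≤
          (((Ch j x (T i) (h i) (y i) (y i + X)).filter
            (fun n => ∀ f ∈ F, n + ∑ l, f l * d l ∈ Ch j x (T i) (h i) (y i) (y i + X))).card : ℝ) := by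
  classical
  have h0' := fun i => chen_low (r i)
  choose j hj c₀ hc₀ h0 using h0'
  obtain ⟨J, hJ1, hjJ⟩ : ∃ J : ℕ, 1 ≤ J ∧ ∀ i, j i ≤ J :=
    ⟨max 1 (univ.sup j), le_max_left _ _, fun i => (le_sup (mem_univ i)).trans (le_max_right _ _)⟩
  obtain ⟨b, hb, hbc⟩ := fin_pos c₀ hc₀
  refine ⟨J, hJ1, fun m k => ?_⟩
  obtain ⟨c, hc, B, x₂, h2⟩ := tupM M m k r J hJ1 (θ := 1 / 2) (δ := b) (by norm_num) hb
  refine ⟨c, hc, B, fun θ hθ => ?_⟩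
  have h3' := fun i => h0 i θ hθ
  choose x₃' h3 using h3'
  obtain ⟨x₃, hx₃⟩ : ∃ x₃ : ℕ, ∀ i, x₃' i ≤ x₃ := ⟨univ.sup x₃', fun i => le_sup (mem_univ i)⟩
  obtain ⟨x₄, h4⟩ : ∃ x₄ : ℕ, ∀ x : ℕ, x₄ ≤ x → (x : ℝ) ^ (1 / 2 : ℝ) ≤ θ * x := by
    have h2 := ((tendsto_rpow_atTop (show (0 : ℝ) < 1 / 2 by norm_num)).comp
      (tendsto_natCast_atTop_atTop (R := ℝ))).eventually (Filter.eventually_ge_atTop (1 / θ))
    rw [Filter.eventually_atTop] at h2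
    obtain ⟨x₀, h⟩ := h2
    refine ⟨max x₀ 1, fun x hx => ?_⟩
    have h3 : 1 / θ ≤ (x : ℝ) ^ (1 / 2 : ℝ) := h x ((le_max_left _ _).trans hx)
    have hx0 : (0 : ℝ) < x := by exact_mod_cast (show 0 < x from (le_max_right _ _).trans hx)
    rw [div_le_iff₀ hθ] at h3
    have h4 : (x : ℝ) = (x : ℝ) ^ (1 / 2 : ℝ) * (x : ℝ) ^ (1 / 2 : ℝ) := by
      rw [← Real.rpow_add hx0]
      norm_num
    have h5 : 0 < (x : ℝ) ^ (1 / 2 : ℝ) := by positivity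
    calc (x : ℝ) ^ (1 / 2 : ℝ) = 1 * (x : ℝ) ^ (1 / 2 : ℝ) := (one_mul _).symm
      _ ≤ (x : ℝ) ^ (1 / 2 : ℝ) * θ * (x : ℝ) ^ (1 / 2 : ℝ) := mul_le_mul_of_nonneg_right h3 h5.le
      _ = θ * ((x : ℝ) ^ (1 / 2 : ℝ) * (x : ℝ) ^ (1 / 2 : ℝ)) := by ring
      _ = θ * x := by rw [← h4]
  refine ⟨max (max x₂ 3) (max x₃ x₄), ?_⟩
  intro x hx T hT h0T h hh hh0 y X D hyx hXx hθX hD hDX
  have e2 : x₂ ≤ x := by omega
  have e3 : x₃ ≤ x := by omega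
  have e4 : x₄ ≤ x := by omega
  have e5 : 3 ≤ x := by omega
  have hwin : (x : ℝ) ^ (1 / 2 : ℝ) ≤ X := (h4 x e4).trans hθX
  have hsub : ∀ i, Ch J x (T i) (h i) (y i) (y i + X) ⊆ Ioc (y i) (y i + X) := fun i => Ch_sub (T i) (h i) _ _
  refine h2 x e2 T hT y X D hwin hXx hD hDX (fun i => Ch J x (T i) (h i) (y i) (y i + X)) hsub
    (fun i n hn => Or.inr (Ch_rough (T i) (h i) _ _ n hn)) (fun i => ?_)
  have hcast : ((y i + X : ℕ) : ℝ) - y i = X := by push_cast; ring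
  have h5 := h3 i x ((hx₃ i).trans e3) (T i) (hT i) (h0T i) (h i) (hh i) (hh0 i) (y i) (y i + X) (hyx i)
    (by rw [hcast]; exact hθX)
  rw [hcast] at h5
  have hg := (gg_pos e5 (hT i)).le
  calc b * (X * gg (T i) x) ≤ c₀ i * (X * gg (T i) x) :=
        mul_le_mul_of_nonneg_right (hbc i) (by positivity)
    _ ≤ _ := h5
    _ ≤ _ := Nat.cast_le.2 (card_le_card (Ch_mono (hj i) (hjJ i) (by omega) _ _ _ _))

end Pool.Agent.X26.MC
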