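import Pool.Agent.X26.MC.Tup

/-!
# Dilated shapes in all patterns, in several dense sets of primes
-/

set_option autoImplicit false

namespace Pool.Agent.X26.MC

open Finset Filter
open Pool.Agent.Y843.AC.HL (Tup gg nu Adm Tp Sing loc)
open Pool.Agent.X26.GP (TF mem_TF)

/-- the integers `t h + ∑ f_j d_j`, `t ∈ T`, `f ∈ F` -/
def dil {m : ℕ} (T : Finset ℕ) (h : ℕ) (d : Fin m → ℕ) (F : Finset (Fin m → ℕ)) : Finset ℤ :=
  (T ×ˢ F).image (fun p : ℕ × (Fin m → ℕ) => ((p.1 * h + ∑ j, p.2 j * d j : ℕ) : ℤ))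

theorem nu_zero {q : ℕ} : nu ({0} : Finset ℤ) q = 1 := by
  unfold nu
  rw [image_singleton, card_singleton]

theorem Sing_zero : Sing ({0} : Finset ℤ) = 1 := by
  unfold Sing
  have h : ∀ q : Nat.Primes, loc ({0} : Finset ℤ) q = 1 := by
    intro q
    unfold loc
    rw [nu_zero, card_singleton, pow_one, Nat.cast_one]
    have h2 : (2 : ℝ) ≤ ((q : ℕ) : ℝ) := by exact_mod_cast q.2.two_le
    apply div_self
    rw [sub_ne_zero]
    intro h3
    have h4 : 1 / ((q : ℕ) : ℝ) ≤ 1 / 2 := one_div_le_one_div_of_le (by norm_num) h2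
    linarith
  simp only [h]
  exact tprod_one

theorem gg_zero (x : ℕ) : gg ({0} : Finset ℤ) x = 1 / Real.log x := by
  unfold gg
  rw [Sing_zero, card_singleton, pow_one]

theorem Tup_zero (x : ℕ) : Tup 1 x ({0} : Finset ℤ) := by
  refine ⟨card_singleton _, ?_, ?_⟩
  · intro q hq
    rw [nu_zero]
    exact hq.one_lt
  · intro t ht
    rw [mem_singleton.1 ht]
    simp

/-- the combined vectors -/
def comb {m : ℕ} (T : Finset ℕ) (F : Finset (Fin m → ℕ)) : Finset (Fin (m + 1) → ℕ) :=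
  (T ×ˢ F).image (fun p : ℕ × (Fin m → ℕ) => (Fin.cons p.1 p.2 : Fin (m + 1) → ℕ))

theorem mem_comb {m : ℕ} {T : Finset ℕ} {F : Finset (Fin m → ℕ)} {g : Fin (m + 1) → ℕ} :
    g ∈ comb T F ↔ ∃ t ∈ T, ∃ f ∈ F, (Fin.cons t f : Fin (m + 1) → ℕ) = g := by
  unfold comb
  rw [mem_image]
  constructor
  · rintro ⟨p, hp, rfl⟩
    rw [mem_product] at hp
    exact ⟨p.1, hp.1, p.2, hp.2, rfl⟩
  · rintro ⟨t, ht, f, hf, rfl⟩
    exact ⟨(t, f), mem_product.2 ⟨ht, hf⟩, rfl⟩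

theorem comb_card {m : ℕ} (T : Finset ℕ) (F : Finset (Fin m → ℕ)) : (comb T F).card = T.card * F.card := by
  unfold comb
  rw [card_image_of_injective, card_product]
  rintro ⟨t, f⟩ ⟨t', f'⟩ h
  simp only at h
  have h1 := congrFun h 0
  simp only [Fin.cons_zero] at h1
  have h2 : f = f' := by
    funext i
    have h3 := congrFun h i.succ
    simpa only [Fin.cons_succ] using h3
  rw [h1, h2]

theorem sum_cons {m : ℕ} (t h : ℕ) (f d : Fin m → ℕ) :
    ∑ j, (Fin.cons t f : Fin (m + 1) → ℕ) j * (Fin.cons h d : Fin (m + 1) → ℕ) j = t * h + ∑ j, f j * d j := by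
  rw [Fin.sum_univ_succ]
  simp only [Fin.cons_zero, Fin.cons_succ]

theorem TF_comb {m : ℕ} (T : Finset ℕ) (h : ℕ) (d : Fin m → ℕ) (F : Finset (Fin m → ℕ)) :
    TF ({0} : Finset ℤ) (Fin.cons h d : Fin (m + 1) → ℕ) (comb T F) = dil T h d F := by
  ext v
  rw [mem_TF]
  unfold dil
  simp only [mem_image, mem_product, mem_singleton, Prod.exists, mem_comb]
  constructor
  · rintro ⟨z, rfl, g, ⟨t, ht, f, hf, rfl⟩, rfl⟩
    refine ⟨t, f, ⟨ht, hf⟩, ?_⟩
    rw [sum_cons]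
    ring
  · rintro ⟨t, f, ⟨ht, hf⟩, rfl⟩
    refine ⟨0, rfl, _, ⟨t, ht, f, hf, rfl⟩, ?_⟩
    rw [sum_cons]
    ring

open Classical in
/-- **dilated shapes in patterns, in several dense sets of primes** -/
theorem dilM (M m k : ℕ) {θ δ : ℝ} (hθ : 0 < θ) (hδ : 0 < δ) : ∃ c : ℝ, 0 < c ∧ ∃ B x₀ : ℕ,
    ∀ x : ℕ, x₀ ≤ x → ∀ (y : Fin M → ℕ) (X D : ℕ), (x : ℝ) ^ θ ≤ X → X ≤ x → Real.log x ^ B ≤ D → D ≤ X →
    ∀ S : Fin M → Finset ℕ, (∀ i, S i ⊆ Ioc (y i) (y i + X)) → (∀ i, ∀ n ∈ S i, n.Prime) →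
    (∀ i, δ * (X / Real.log x) ≤ ((S i).card : ℝ)) →
    ∃ G ⊆ Icc 1 D ×ˢ Fintype.piFinset (fun _ : Fin m => Icc 1 D), c * (D : ℝ) ^ (m + 1) ≤ (G.card : ℝ) ∧
      ∀ v ∈ G, ∀ (T : Finset ℕ) (F : Finset (Fin m → ℕ)), (∀ t ∈ T, t < k) → 0 ∈ T → (∀ f ∈ F, ∀ i, f i < k) →
      (fun _ => 0) ∈ F → ∀ i, (dil T v.1 v.2 F).card = T.card * F.card ∧ Adm (dil T v.1 v.2 F) ∧
      c * (X * gg (dil T v.1 v.2 F) x) ≤
        (((S i).filter (fun n => ∀ t ∈ T, ∀ f ∈ F, n + (t * v.1 + ∑ j, f j * v.2 j) ∈ S i)).card : ℝ) := by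
  obtain ⟨c, hc, B, x₀, h⟩ := tupM M (m + 1) k (fun _ => 1) 1 le_rfl (θ := θ) (δ := δ) hθ hδ
  refine ⟨c, hc, B, x₀, fun x hx y X D hX hXx hBD hDX S hS hSp hSc => ?_⟩
  obtain ⟨G, g1, g2, g3⟩ := h x hx (fun _ => {0}) (fun _ => Tup_zero x) y X D hX hXx hBD hDX S hS
    (fun i n hn => Or.inl (by
      intro t ht
      rw [mem_singleton.1 ht, add_zero, Int.natAbs_natCast]
      exact hSp i n hn)) (fun i => by
      have e : δ * (X * gg ({0} : Finset ℤ) x) = δ * (X / Real.log x) := by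
        rw [gg_zero]; ring
      rw [e]
      exact hSc i)
  have hinj : Function.Injective (fun g : Fin (m + 1) → ℕ => ((g 0, Fin.tail g) : ℕ × (Fin m → ℕ))) := by
    intro a b hab
    simp only [Prod.mk.injEq] at hab
    rw [← Fin.cons_self_tail a, ← Fin.cons_self_tail b, hab.1, hab.2]
  refine ⟨G.image (fun g => (g 0, Fin.tail g)), ?_, ?_, ?_⟩
  · intro v hv
    rw [mem_image] at hv
    obtain ⟨g, hg, rfl⟩ := hv
    have h1 := g1 hg
    rw [Fintype.mem_piFinset] at h1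
    rw [mem_product, Fintype.mem_piFinset]
    exact ⟨h1 0, fun i => h1 i.succ⟩
  · rw [card_image_of_injective _ hinj]
    exact g2
  · intro v hv T F hT h0T hF h0F i
    rw [mem_image] at hv
    obtain ⟨g, hg, rfl⟩ := hv
    have hgc : (Fin.cons (g 0) (Fin.tail g) : Fin (m + 1) → ℕ) = g := Fin.cons_self_tail g
    obtain ⟨k1, k2, k3⟩ := g3 g hg (comb T F) (by
      intro f hf j
      rw [mem_comb] at hf
      obtain ⟨t, ht, f', hf', rfl⟩ := hf
      refine Fin.cases ?_ (fun j => ?_) j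
      · rw [Fin.cons_zero]; exact hT t ht
      · rw [Fin.cons_succ]; exact hF f' hf' j) (by
      rw [mem_comb]
      refine ⟨0, h0T, _, h0F, ?_⟩
      funext j
      refine Fin.cases ?_ (fun j => ?_) j
      · rw [Fin.cons_zero]
      · rw [Fin.cons_succ]) i
    have e : TF ({0} : Finset ℤ) g (comb T F) = dil T (g 0) (Fin.tail g) F := by
      conv_lhs => rw [← hgc]
      exact TF_comb T (g 0) (Fin.tail g) F
    rw [e] at k1 k2 k3
    refine ⟨by rw [k1, comb_card, one_mul], k2, k3.trans (Nat.cast_le.2 (card_le_card ?_))⟩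
    intro n hn
    rw [mem_filter] at hn ⊢
    refine ⟨hn.1, fun t ht f hf => ?_⟩
    have h2 := hn.2 (Fin.cons t f) (mem_comb.2 ⟨t, ht, f, hf, rfl⟩)
    have h3 : ∑ j, (Fin.cons t f : Fin (m + 1) → ℕ) j * g j = t * g 0 + ∑ j, f j * Fin.tail g j := by
      conv_lhs => rw [← hgc]
      exact sum_cons t (g 0) f (Fin.tail g)
    rw [h3] at h2
    exact h2

end Pool.Agent.X26.MC
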