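import Pool.Agent.X26.MC.Tup
import Pool.Agent.X26.GP.Rough

/-!
# Almost prime tuples in short windows: the lower bound
-/

set_option autoImplicit false

namespace Pool.Agent.X26.MC

open Finset Filter
open Pool.Agent.Y843.HS (VV Pr Pr_mem Pr_prime log_ge)
open Pool.Agent.Y843.AC (OK Av)
open Pool.Agent.Y843.AC.HL (Tup gg ZT nu Adm Tp Rough Sing loc mem_ZT card_ZT ZT_lt ZT_ok gg_pos Alm)
open Pool.Agent.X26.GP (TF VV_low)

/-- a product of primes `> w` -/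
theorem prod_gt {w : ℝ} (hw : 0 ≤ w) : ∀ l : List ℕ, (∀ q ∈ l, w < (q : ℝ)) → w ^ l.length ≤ (l.prod : ℝ) := by
  intro l
  induction l with
  | nil => intro _; simp
  | cons a l ih =>
    intro h
    rw [List.length_cons, List.prod_cons, pow_succ, mul_comm, Nat.cast_mul]
    have h1 := ih (fun q hq => h q (List.mem_cons_of_mem _ hq))
    have h2 := h a List.mem_cons_self
    exact mul_le_mul h2.le h1 (by positivity) (by positivity)

/-- rough integers below `2 x` are almost primes -/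
theorem alm_of {u x : ℕ} (hu : 1 ≤ u) (hx : (2 : ℝ) < (x : ℝ) ^ (1 / (u : ℝ))) {k : ℤ}
    (hk : ∀ q : ℕ, q.Prime → (q : ℝ) ≤ (x : ℝ) ^ (1 / (u : ℝ)) → ¬ (q : ℤ) ∣ k) (hkx : |k| ≤ (2 * x : ℕ)) :
    Alm u ((x : ℝ) ^ (1 / (u : ℝ))) k := by
  have hu0 : (0 : ℝ) < u := by exact_mod_cast hu
  have hx0 : (0 : ℝ) < x := by
    rcases Nat.eq_zero_or_pos x with h | h
    · exfalso
      subst h
      rw [Nat.cast_zero, Real.zero_rpow (by positivity)] at hx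
      linarith
    · exact_mod_cast h
  have hk0 : k ≠ 0 := by
    rintro rfl
    exact hk 2 Nat.prime_two (by push_cast; exact hx.le) (dvd_zero _)
  have hw : ∀ q : ℕ, q.Prime → (q : ℤ) ∣ k → (x : ℝ) ^ (1 / (u : ℝ)) < q := by
    intro q hq hd
    by_contra hcon
    exact hk q hq (not_lt.1 hcon) hd
  refine ⟨hk0, ?_, hw⟩
  by_contra hcon
  rw [not_le] at hcon
  have h1 := prod_gt (w := (x : ℝ) ^ (1 / (u : ℝ))) (by positivity) k.natAbs.primeFactorsList (by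
    intro q hq
    have hq' := Nat.prime_of_mem_primeFactorsList hq
    exact hw q hq' (Int.natCast_dvd.2 (Nat.dvd_of_mem_primeFactorsList hq)))
  rw [Nat.prod_primeFactorsList (Int.natAbs_ne_zero.2 hk0)] at h1
  have h2 : ((x : ℝ) ^ (1 / (u : ℝ))) ^ (u + 1) ≤ ((x : ℝ) ^ (1 / (u : ℝ))) ^ k.natAbs.primeFactorsList.length :=
    pow_le_pow_right₀ (by linarith) hcon
  have h3 : ((x : ℝ) ^ (1 / (u : ℝ))) ^ (u + 1) = x * (x : ℝ) ^ (1 / (u : ℝ)) := by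
    rw [pow_succ, ← Real.rpow_natCast, ← Real.rpow_mul hx0.le, one_div_mul_cancel hu0.ne', Real.rpow_one]
  have h4 : (k.natAbs : ℝ) ≤ 2 * x := by
    have h5 : (k.natAbs : ℤ) ≤ (2 * x : ℕ) := by rw [Int.natCast_natAbs]; exact hkx
    exact_mod_cast h5
  have h5 : (x : ℝ) * 2 < x * (x : ℝ) ^ (1 / (u : ℝ)) := mul_lt_mul_of_pos_left hx hx0
  linarith [h3 ▸ h2.trans h1]

open Classical in
/-- the `n` in `(y, y + X]` for which all `n + t`, `t ∈ T`, are products of at most `j` primes, all `> x ^ (1 / j)` -/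
noncomputable def Rg (j x : ℕ) (T : Finset ℤ) (y X : ℕ) : Finset ℕ :=
  (Ioc y (y + X)).filter (fun n => ∀ t ∈ T, Alm j ((x : ℝ) ^ (1 / (j : ℝ))) ((n : ℤ) + t))

theorem Rg_sub (j x : ℕ) (T : Finset ℤ) (y X : ℕ) : Rg j x T y X ⊆ Ioc y (y + X) := by
  classical
  unfold Rg
  exact filter_subset _ _

theorem Rg_rough {j x : ℕ} {T : Finset ℤ} {y X : ℕ} : ∀ n ∈ Rg j x T y X, Rough j x T n := by
  classical
  intro n hn q hq hqx t ht hd
  unfold Rg at hn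
  rw [mem_filter] at hn
  have := (hn.2 t ht).2.2 q hq hd
  linarith

/-- **lower bound for almost prime tuples in short windows** -/
theorem lowR (r : ℕ) {θ : ℝ} (hθ : 0 < θ) : ∃ j : ℕ, 1 ≤ j ∧ ∀ j' : ℕ, j ≤ j' → ∃ c : ℝ, 0 < c ∧ ∃ x₀ : ℕ,
    ∀ x : ℕ, x₀ ≤ x → ∀ T : Finset ℤ, Tup r x T → ∀ y X : ℕ, (x : ℝ) ^ θ ≤ X → y + X ≤ x →
    c * (X * gg T x) ≤ ((Rg j' x T y X).card : ℝ) := by
  classical
  obtain ⟨κ₀, hκ₀, hκ₀1, hR⟩ := Pool.Agent.X26.GP.rough r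
  obtain ⟨u, hu⟩ : ∃ u : ℕ, u = max 1 ⌈1 / (θ * κ₀)⌉₊ := ⟨_, rfl⟩
  have hu1 : 1 ≤ u := by omega
  refine ⟨u, hu1, fun j' hj' => ?_⟩
  have hj1 : 1 ≤ j' := by omega
  have hj0 : (0 : ℝ) < j' := by exact_mod_cast hj1
  have hθκ : 0 < θ * κ₀ := by positivity
  have hju : 1 / (j' : ℝ) ≤ θ * κ₀ := by
    rw [div_le_iff₀ hj0]
    have h1 : 1 / (θ * κ₀) ≤ j' := by
      refine (Nat.le_ceil _).trans ?_
      exact_mod_cast le_trans (by rw [hu]; exact le_max_right _ _) hj'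
    rw [div_le_iff₀ hθκ] at h1
    linarith
  obtain ⟨X₁, h1⟩ := hR κ₀ hκ₀ le_rfl
  obtain ⟨c₃, hc₃, n₃, h3⟩ := VV_low r 1 le_rfl
  obtain ⟨n₅, h5⟩ := log_ge (max 1 (max (Real.log (X₁ + r + 2 : ℕ) / θ) (j' * Real.log 3)))
  refine ⟨1 / 2 * c₃, by positivity, max n₃ (max n₅ 3), fun x hx T hT y X hX hyX => ?_⟩
  have e3 : n₃ ≤ x := by omega
  have e5 := h5 x (by omega)
  have e6 : 3 ≤ x := by omega
  have hXx : X ≤ x := by omega
  have l1 : 1 ≤ Real.log x := (le_max_left _ _).trans e5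
  have l3 : Real.log (X₁ + r + 2 : ℕ) / θ ≤ Real.log x :=
    (le_max_left _ _).trans ((le_max_right _ _).trans e5)
  have l4 : j' * Real.log 3 ≤ Real.log x :=
    (le_max_right _ _).trans ((le_max_right _ _).trans e5)
  have hx0 : (0 : ℝ) < x := by exact_mod_cast (show 0 < x by omega)
  have hx1 : (1 : ℝ) ≤ x := by exact_mod_cast (show 1 ≤ x by omega)
  have hXbig : X₁ + r + 2 ≤ X := by
    have h6 : ((X₁ + r + 2 : ℕ) : ℝ) ≤ (x : ℝ) ^ θ := by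
      rw [Real.rpow_def_of_pos hx0, ← Real.log_le_iff_le_exp (by positivity)]
      rw [div_le_iff₀ hθ] at l3
      exact l3
    exact_mod_cast h6.trans hX
  have hX0 : (0 : ℝ) < X := by exact_mod_cast (show 0 < X by omega)
  have hX1 : (1 : ℝ) ≤ X := by exact_mod_cast (show 1 ≤ X by omega)
  have hw : (2 : ℝ) < (x : ℝ) ^ (1 / (j' : ℝ)) := by
    have h6 : (3 : ℝ) ≤ (x : ℝ) ^ (1 / (j' : ℝ)) := by
      rw [Real.rpow_def_of_pos hx0, ← Real.log_le_iff_le_exp (by norm_num)]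
      rw [mul_one_div, le_div_iff₀ hj0]
      linarith
    linarith
  have hOK : OK r κ₀ X (ZT T) := fun p hp _ => ZT_ok hT hp
  have h6 := h1 X y (by omega) (ZT T) hOK
  have h7 : VV (ZT T) 0 X ≤ VV (ZT T) 0 ⌊(X : ℝ) ^ κ₀⌋₊ := by
    refine Pool.Agent.Y843.HG.VV_anti ?_ (fun p hp => ZT_lt (Pr_prime hp).pos)
    have h8 : (X : ℝ) ^ κ₀ ≤ X := by
      calc (X : ℝ) ^ κ₀ ≤ (X : ℝ) ^ (1 : ℝ) := Real.rpow_le_rpow_of_exponent_le hX1 hκ₀1
        _ = X := Real.rpow_one _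
    have := Nat.floor_le_floor h8
    rwa [Nat.floor_natCast] at this
  have h8 := h3 x e3 T hT.card.le hT.adm (fun t ht => by rw [one_mul]; exact hT.size t ht) X hXx
  calc 1 / 2 * c₃ * (X * gg T x) = 1 / 2 * (X * (c₃ * gg T x)) := by ring
    _ ≤ 1 / 2 * (X * VV (ZT T) 0 ⌊(X : ℝ) ^ κ₀⌋₊) := by
        apply mul_le_mul_of_nonneg_left _ (by norm_num)
        exact mul_le_mul_of_nonneg_left (h8.trans h7) hX0.le
    _ ≤ _ := h6
    _ ≤ _ := by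
        apply Nat.cast_le.2
        apply card_le_card
        intro n hn
        rw [mem_filter] at hn
        unfold Rg
        rw [mem_filter]
        refine ⟨hn.1, fun t ht => ?_⟩
        apply alm_of hj1 hw
        · intro q hq hqx hd
          have h9 : (q : ℝ) ≤ (X : ℝ) ^ κ₀ := by
            refine hqx.trans ?_
            calc (x : ℝ) ^ (1 / (j' : ℝ)) ≤ (x : ℝ) ^ (θ * κ₀) := Real.rpow_le_rpow_of_exponent_le hx1 hju
              _ = ((x : ℝ) ^ θ) ^ κ₀ := Real.rpow_mul hx0.le _ _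
              _ ≤ (X : ℝ) ^ κ₀ := Real.rpow_le_rpow (by positivity) hX hκ₀.le
          exact hn.2 q hq h9 ((mem_ZT hq.pos).2 ⟨t, ht, hd⟩)
        · have h10 := hT.size t ht
          have h11 := (mem_Ioc.1 hn.1).2
          rw [abs_le] at h10 ⊢
          push_cast
          constructor <;> omega

/-- **common patterns of almost prime tuples in short windows** -/
theorem shortM (M : ℕ) (r : Fin M → ℕ) {θ : ℝ} (hθ : 0 < θ) : ∃ j : ℕ, 1 ≤ j ∧ ∃ c₀ : ℝ, 0 < c₀ ∧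
    (∃ x₀ : ℕ, ∀ x : ℕ, x₀ ≤ x → ∀ i, ∀ T : Finset ℤ, Tup (r i) x T → ∀ y X : ℕ, (x : ℝ) ^ θ ≤ X → y + X ≤ x →
      c₀ * (X * gg T x) ≤ ((Rg j x T y X).card : ℝ)) ∧
    ∀ (m k : ℕ) (δ : ℝ), 0 < δ → ∃ c : ℝ, 0 < c ∧ ∃ B x₀ : ℕ,
      ∀ x : ℕ, x₀ ≤ x → ∀ T : Fin M → Finset ℤ, (∀ i, Tup (r i) x (T i)) → ∀ (y : Fin M → ℕ) (X D : ℕ),
      (x : ℝ) ^ θ ≤ X → X ≤ x → Real.log x ^ B ≤ D → D ≤ X → ∀ S : Fin M → Finset ℕ,
      (∀ i, S i ⊆ Rg j x (T i) (y i) X) → (∀ i, δ * (X * gg (T i) x) ≤ ((S i).card : ℝ)) →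
      ∃ G ⊆ Fintype.piFinset (fun _ : Fin m => Icc 1 D), c * (D : ℝ) ^ m ≤ (G.card : ℝ) ∧ ∀ d ∈ G,
        ∀ F : Finset (Fin m → ℕ), (∀ f ∈ F, ∀ i, f i < k) → (fun _ => 0) ∈ F → ∀ i,
        (TF (T i) d F).card = r i * F.card ∧ Adm (TF (T i) d F) ∧
        c * (X * gg (TF (T i) d F) x) ≤
          (((S i).filter (fun n => ∀ f ∈ F, n + ∑ j, f j * d j ∈ S i)).card : ℝ) := by
  classical
  have h0 := fun i => lowR (r i) hθ
  choose j hj h1 using h0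
  obtain ⟨J, hJ1, hjJ⟩ : ∃ J : ℕ, 1 ≤ J ∧ ∀ i, j i ≤ J :=
    ⟨max 1 (univ.sup j), le_max_left _ _, fun i => (le_sup (mem_univ i)).trans (le_max_right _ _)⟩
  have h2 := fun i => h1 i J (hjJ i)
  choose c' hc' x₁ h3 using h2
  obtain ⟨b, hb, hbc⟩ := fin_pos c' hc'
  refine ⟨J, hJ1, b, hb, ⟨max 3 (univ.sup x₁), fun x hx i T hT y X hX hyX => ?_⟩, ?_⟩
  · have hx1 : x₁ i ≤ x := (le_sup (mem_univ i)).trans ((le_max_right _ _).trans hx)
    refine le_trans ?_ (h3 i x hx1 T hT y X hX hyX)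
    apply mul_le_mul_of_nonneg_right (hbc i)
    have := gg_pos ((le_max_left _ _).trans hx) hT
    positivity
  · intro m k δ hδ
    obtain ⟨c, hc, B, x₀, h⟩ := tupM M m k r J hJ1 hθ hδ
    refine ⟨c, hc, B, x₀, fun x hx T hT y X D hX hXx hBD hDX S hS hSc => ?_⟩
    exact h x hx T hT y X D hX hXx hBD hDX S (fun i => (hS i).trans (Rg_sub _ _ _ _ _))
      (fun i n hn => Or.inr (Rg_rough n (hS i hn))) hSc

end Pool.Agent.X26.MC
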