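import Pool.Agent.X26.MC.Main
import Pool.Agent.X26.GP.Tup

/-!
# Translates of several admissible sets by all patterns with the same differences
-/

set_option autoImplicit false

namespace Pool.Agent.X26.MC

open Finset Filter
open Pool.Agent.Y843.HS (VV Pr Pr_mem Pr_prime log_ge)
open Pool.Agent.Y843.HG (VV_anti)
open Pool.Agent.Y843.AC (OK Av)
open Pool.Agent.Y843.AC.HL (Tup gg ZT nu Adm Tp Rough Sing loc mem_ZT card_ZT ZT_lt ZT_ok gg_pos small_part V_up
  VV_cmp)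
open Pool.Agent.X26.GP (TF mem_TF ZT_TF Coin coin_few TF_card VV_low F_card ZP)

variable {M m : ℕ}

/-- a common positive lower bound of finitely many positive numbers -/
theorem fin_pos {M : ℕ} (c : Fin M → ℝ) (hc : ∀ i, 0 < c i) : ∃ c₀ : ℝ, 0 < c₀ ∧ ∀ i, c₀ ≤ c i := by
  have h : ∀ᶠ x : ℝ in nhdsWithin 0 (Set.Ioi 0), ∀ i, x ≤ c i := by
    rw [eventually_all]
    intro i
    have h1 : ∀ᶠ x : ℝ in nhds 0, x < c i := eventually_lt_nhds (hc i)
    exact (h1.filter_mono nhdsWithin_le_nhds).mono (fun x hx => hx.le)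
  obtain ⟨x, hx, hx2⟩ := (h.and self_mem_nhdsWithin).exists
  exact ⟨x, hx2, hx⟩

/-- **common patterns in sets of tuples** -/
theorem tupM (M m k : ℕ) (r : Fin M → ℕ) (u : ℕ) (hu : 1 ≤ u) {θ δ : ℝ} (hθ : 0 < θ) (hδ : 0 < δ) :
    ∃ c : ℝ, 0 < c ∧ ∃ B x₀ : ℕ,
    ∀ x : ℕ, x₀ ≤ x → ∀ T : Fin M → Finset ℤ, (∀ i, Tup (r i) x (T i)) → ∀ (y : Fin M → ℕ) (X D : ℕ),
    (x : ℝ) ^ θ ≤ X → X ≤ x → Real.log x ^ B ≤ D → D ≤ X → ∀ S : Fin M → Finset ℕ,
    (∀ i, S i ⊆ Ioc (y i) (y i + X)) → (∀ i, ∀ n ∈ S i, Tp u x (T i) n) →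
    (∀ i, δ * (X * gg (T i) x) ≤ ((S i).card : ℝ)) →
    ∃ G ⊆ Fintype.piFinset (fun _ : Fin m => Icc 1 D), c * (D : ℝ) ^ m ≤ (G.card : ℝ) ∧ ∀ d ∈ G,
      ∀ F : Finset (Fin m → ℕ), (∀ f ∈ F, ∀ i, f i < k) → (fun _ => 0) ∈ F → ∀ i,
      (TF (T i) d F).card = r i * F.card ∧ Adm (TF (T i) d F) ∧
      c * (X * gg (TF (T i) d F) x) ≤
        (((S i).filter (fun n => ∀ f ∈ F, n + ∑ j, f j * d j ∈ S i)).card : ℝ) := by
  classical
  obtain ⟨R, hR⟩ : ∃ R : ℕ, ∀ i, r i ≤ R := ⟨univ.sup r, fun i => le_sup (mem_univ i)⟩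
  have hsp0 := fun i => small_part (r i) 0 u hu hθ
  choose u' hu' hsp using hsp0
  obtain ⟨v, hv⟩ : ∃ v : ℕ, v = max 1 ⌈1 / θ⌉₊ := ⟨_, rfl⟩
  have hv1 : 1 ≤ v := by omega
  have hv0 : (0 : ℝ) < v := by exact_mod_cast hv1
  have h1' := fun i => V_up (r i) v hv1
  choose C₁' hC₁' n₁' h1 using h1'
  obtain ⟨b, hb, hbC⟩ := fin_pos (fun i => 1 / C₁' i) (fun i => by have := hC₁' i; positivity)
  have hCb : ∀ i, C₁' i ≤ 1 / b := by
    intro i
    have h2 := hbC i
    rw [le_div_iff₀ (hC₁' i)] at h2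
    rw [le_div_iff₀ hb]
    linarith
  obtain ⟨C₁, hC₁e⟩ : ∃ C₁ : ℝ, C₁ = 1 / b := ⟨_, rfl⟩
  have hC₁ : 0 < C₁ := by rw [hC₁e]; positivity
  have hCC : ∀ i, C₁' i ≤ C₁ := by rw [hC₁e]; exact hCb
  obtain ⟨U, hU1, hUu⟩ : ∃ U : ℕ, 1 ≤ U ∧ ∀ i, u' i ≤ U :=
    ⟨max 1 (univ.sup u'), le_max_left _ _, fun i => (le_sup (mem_univ i)).trans (le_max_right _ _)⟩
  have hU0 : (0 : ℝ) < U := by exact_mod_cast hU1
  obtain ⟨c₂, hc₂, B, n₂, h2⟩ := multi M m k R (κ := 1 / (U : ℝ)) (δ := δ / (2 * C₁)) (by positivity)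
    (by rw [div_le_one hU0]; exact_mod_cast hU1) (by positivity)
  obtain ⟨c₃, hc₃, n₃, h3⟩ := VV_low (R * k ^ m) (k * m + 1) (by omega)
  have h4' := fun i => hsp i (δ / 2) (by positivity)
  choose n₄' h4 using h4'
  obtain ⟨n₄, hn₄⟩ : ∃ n₄ : ℕ, ∀ i, n₄' i ≤ n₄ := ⟨univ.sup n₄', fun i => le_sup (mem_univ i)⟩
  obtain ⟨n₁, hn₁⟩ : ∃ n₁ : ℕ, ∀ i, n₁' i ≤ n₁ := ⟨univ.sup n₁', fun i => le_sup (mem_univ i)⟩
  obtain ⟨n₅, h5⟩ := log_ge (max 1 (max (2 * (M * ((k ^ m) ^ 2 * R ^ 2) : ℕ) / c₂)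
    (Real.log (n₂ + R * k ^ m + 1 : ℕ) / θ)))
  refine ⟨min (c₂ / 2) (c₂ * c₃), lt_min (by positivity) (by positivity), max B 1,
    max (max n₁ n₃) (max (max n₄ n₅) 3), ?_⟩
  intro x hx T hT y X D hX hXx hBD hDX S hS hSp hSc
  have e1 : n₁ ≤ x := by omega
  have e3 : n₃ ≤ x := by omega
  have e4 : n₄ ≤ x := by omega
  have e5 := h5 x (by omega)
  have e6 : 3 ≤ x := by omega
  have l1 : 1 ≤ Real.log x := (le_max_left _ _).trans e5
  have l2 : 2 * ((M * ((k ^ m) ^ 2 * R ^ 2) : ℕ) : ℝ) / c₂ ≤ Real.log x :=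
    (le_max_left _ _).trans ((le_max_right _ _).trans e5)
  have l3 : Real.log (n₂ + R * k ^ m + 1 : ℕ) / θ ≤ Real.log x :=
    (le_max_right _ _).trans ((le_max_right _ _).trans e5)
  have hx0 : (0 : ℝ) < x := by exact_mod_cast (show 0 < x by omega)
  have hx1 : (1 : ℝ) ≤ x := by exact_mod_cast (show 1 ≤ x by omega)
  have hXbig : n₂ + R * k ^ m + 1 ≤ X := by
    have h6 : ((n₂ + R * k ^ m + 1 : ℕ) : ℝ) ≤ (x : ℝ) ^ θ := by
      rw [Real.rpow_def_of_pos hx0, ← Real.log_le_iff_le_exp (by positivity)]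
      rw [div_le_iff₀ hθ] at l3
      exact l3
    exact_mod_cast h6.trans hX
  have hX0 : (0 : ℝ) < X := by exact_mod_cast (show 0 < X by omega)
  have hX1 : (1 : ℝ) ≤ X := by exact_mod_cast (show 1 ≤ X by omega)
  have hD1 : Real.log x ≤ D := by
    refine le_trans ?_ hBD
    exact le_self_pow₀ l1 (by omega)
  have hD0 : (0 : ℝ) < D := by linarith
  have hsplit := fun i => h4 i x ((hn₄ i).trans e4) (T i) (hT i) (y i) X hX (S i) (hS i) (hSp i)
  choose S₁ S₂ s1 s2 s3 s4 _ using hsplit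
  have hcard : ∀ i, δ / 2 * (X * gg (T i) x) ≤ ((S₁ i).card : ℝ) := by
    intro i
    have h6 : ((S i).card : ℝ) ≤ (S₁ i).card + (S₂ i).card := by
      exact_mod_cast (card_le_card (s2 i)).trans (card_union_le _ _)
    have := s4 i
    have := hSc i
    linarith
  have hgg : ∀ i, 0 ≤ gg (T i) x := fun i => (gg_pos e6 (hT i)).le
  have hV : ∀ i, VV (ZT (T i)) 0 X ≤ C₁ * gg (T i) x := by
    intro i
    refine le_trans ?_ (le_trans (h1 i x ((hn₁ i).trans e1) (T i) (hT i))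
      (mul_le_mul_of_nonneg_right (hCC i) (hgg i)))
    refine VV_anti ?_ (fun p hp => ZT_lt (Pr_prime hp).pos)
    have h6 : (x : ℝ) ^ (1 / (v : ℝ)) ≤ X := by
      refine le_trans (Real.rpow_le_rpow_of_exponent_le hx1 ?_) hX
      rw [div_le_iff₀ hv0]
      have h7 : 1 / θ ≤ v := by
        rw [hv]
        exact (Nat.le_ceil _).trans (by exact_mod_cast le_max_right _ _)
      rw [div_le_iff₀ hθ] at h7
      linarith
    have := Nat.floor_le_floor h6
    rwa [Nat.floor_natCast] at this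
  have hlX : Real.log X ≤ Real.log x := Real.log_le_log hX0 (by exact_mod_cast hXx)
  have hlX0 : 0 ≤ Real.log X := Real.log_nonneg hX1
  obtain ⟨G₀, hG₀, hG1, hG2⟩ := h2 X D (by omega) (by
      refine le_trans (pow_le_pow_left₀ hlX0 hlX B) (le_trans ?_ hBD)
      exact pow_le_pow_right₀ l1 (le_max_left _ _)) hDX y (fun i => ZT (T i)) S₁ (fun i p hp _ => by
      obtain ⟨a, b, c⟩ := ZT_ok (hT i) hp
      exact ⟨a.trans (hR i), b, c⟩) (fun i => (s1 i).trans (hS i)) (by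
      intro i n hn p hp hpX hmem
      rw [mem_ZT hp.pos] at hmem
      obtain ⟨t, ht, hd⟩ := hmem
      refine s3 i n hn p hp (hpX.trans ?_) t ht hd
      have hu0 : (0 : ℝ) < u' i := by exact_mod_cast hu' i
      refine (Real.rpow_le_rpow hX0.le (by exact_mod_cast hXx) (by positivity)).trans
        (Real.rpow_le_rpow_of_exponent_le hx1 ?_)
      exact one_div_le_one_div_of_le hu0 (by exact_mod_cast hUu i)) (by
      intro i
      calc δ / (2 * C₁) * (X * VV (ZT (T i)) 0 X) ≤ δ / (2 * C₁) * (X * (C₁ * gg (T i) x)) := by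
            apply mul_le_mul_of_nonneg_left _ (by positivity)
            exact mul_le_mul_of_nonneg_left (hV i) hX0.le
        _ = δ / 2 * (X * gg (T i) x) := by field_simp
        _ ≤ _ := hcard i)
  refine ⟨G₀.filter (fun d => ∀ i, ¬ Coin k (T i) d), (filter_subset _ _).trans hG₀, ?_, ?_⟩
  · have h6 : (G₀.card : ℝ) ≤ (G₀.filter (fun d => ∀ i, ¬ Coin k (T i) d)).card +
        ∑ i : Fin M, (((Fintype.piFinset (fun _ : Fin m => Icc 1 D)).filter
          (fun d => Coin k (T i) d)).card : ℝ) := by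
      have h7 : G₀ ⊆ G₀.filter (fun d => ∀ i, ¬ Coin k (T i) d) ∪
          (univ : Finset (Fin M)).biUnion (fun i => (Fintype.piFinset (fun _ : Fin m => Icc 1 D)).filter
            (fun d => Coin k (T i) d)) := by
        intro d hd
        rw [mem_union, mem_filter, mem_biUnion]
        by_cases h : ∀ i, ¬ Coin k (T i) d
        · exact Or.inl ⟨hd, h⟩
        · right
          push Not at h
          obtain ⟨i, hi⟩ := h
          exact ⟨i, mem_univ _, mem_filter.2 ⟨hG₀ hd, hi⟩⟩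
      exact_mod_cast (card_le_card h7).trans ((card_union_le _ _).trans (Nat.add_le_add_left card_biUnion_le _))
    have h7 : ∀ i, (((Fintype.piFinset (fun _ : Fin m => Icc 1 D)).filter (fun d => Coin k (T i) d)).card : ℝ) *
        D ≤ ((k ^ m) ^ 2 * R ^ 2 : ℕ) * (D : ℝ) ^ m := by
      intro i
      have := coin_few (m := m) k D (T i)
      rw [(hT i).card] at this
      have h8 : ((Fintype.piFinset (fun _ : Fin m => Icc 1 D)).filter (fun d => Coin k (T i) d)).card * D ≤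
          ((k ^ m) ^ 2 * R ^ 2) * D ^ m := by
        refine this.trans (Nat.mul_le_mul_right _ (Nat.mul_le_mul_left _ ?_))
        exact Nat.pow_le_pow_left (hR i) 2
      exact_mod_cast h8
    have h8 : (∑ i : Fin M, (((Fintype.piFinset (fun _ : Fin m => Icc 1 D)).filter
          (fun d => Coin k (T i) d)).card : ℝ)) ≤ c₂ / 2 * (D : ℝ) ^ m := by
      have h9 : (((M * ((k ^ m) ^ 2 * R ^ 2) : ℕ)) : ℝ) ≤ c₂ / 2 * D := by
        rw [div_le_iff₀ hc₂] at l2
        have h10 : Real.log x * c₂ ≤ D * c₂ := mul_le_mul_of_nonneg_right hD1 hc₂.le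
        linarith
      have h10 : (∑ i : Fin M, (((Fintype.piFinset (fun _ : Fin m => Icc 1 D)).filter
          (fun d => Coin k (T i) d)).card : ℝ)) * D ≤ ((M * ((k ^ m) ^ 2 * R ^ 2) : ℕ) : ℝ) * (D : ℝ) ^ m := by
        rw [sum_mul]
        calc _ ≤ ∑ _i : Fin M, (((k ^ m) ^ 2 * R ^ 2 : ℕ) : ℝ) * (D : ℝ) ^ m := sum_le_sum (fun i _ => h7 i)
          _ = _ := by
            rw [sum_const, card_univ, Fintype.card_fin, nsmul_eq_mul]
            push_cast
            ring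
      have h11 := h10.trans (mul_le_mul_of_nonneg_right h9 (by positivity : (0 : ℝ) ≤ (D : ℝ) ^ m))
      have h12 : c₂ / 2 * D * (D : ℝ) ^ m = c₂ / 2 * (D : ℝ) ^ m * D := by ring
      rw [h12] at h11
      exact le_of_mul_le_mul_right h11 hD0
    have h9 : min (c₂ / 2) (c₂ * c₃) * (D : ℝ) ^ m ≤ c₂ / 2 * (D : ℝ) ^ m :=
      mul_le_mul_of_nonneg_right (min_le_left _ _) (by positivity)
    linarith
  · intro d hd F hF h0 i
    rw [mem_filter] at hd
    obtain ⟨-, hp⟩ := hG2 d hd.1 F hF h0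
    obtain ⟨hp2, hp3⟩ := hp i
    have hcF := F_card hF
    have hTc := TF_card (T := T i) hF (hd.2 i)
    rw [(hT i).card] at hTc
    have hle : (TF (T i) d F).card ≤ R * k ^ m := by
      rw [hTc]
      exact Nat.mul_le_mul (hR i) hcF
    have hadm : Adm (TF (T i) d F) := by
      intro q hq
      by_cases hqX : q ≤ X
      · have h6 := hp2 q hq hqX
        rw [← ZT_TF (T i) d F hq.pos, card_ZT _ hq.pos] at h6
        exact h6
      · have h6 := Pool.Agent.Y843.AC.HL.nu_le (TF (T i) d F) q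
        omega
    refine ⟨hTc, hadm, ?_⟩
    have hVe : VV (ZP (ZT (T i)) d F) 0 X = VV (ZT (TF (T i) d F)) 0 X := by
      unfold VV
      apply prod_congr rfl
      intro p hp
      rw [ZT_TF (T i) d F (Pr_prime hp).pos]
    have hsz : ∀ t ∈ TF (T i) d F, |t| ≤ (((k * m + 1) * x : ℕ) : ℤ) := by
      intro w hw
      obtain ⟨t, ht, f, hf, rfl⟩ := mem_TF.1 hw
      have h6 := (hT i).size t ht
      have h7 : ∑ j, f j * d j ≤ k * m * x := by
        calc ∑ j, f j * d j ≤ ∑ _j : Fin m, k * x := by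
              apply sum_le_sum
              intro j _
              have h8 := hG₀ hd.1
              rw [Fintype.mem_piFinset] at h8
              have h9 := mem_Icc.1 (h8 j)
              exact Nat.mul_le_mul (hF f hf j).le (h9.2.trans (hDX.trans hXx))
          _ = k * m * x := by rw [sum_const, card_univ, Fintype.card_fin, smul_eq_mul]; ring
      have h8 : ((∑ j, f j * d j : ℕ) : ℤ) ≤ ((k * m * x : ℕ) : ℤ) := by exact_mod_cast h7
      have h9 : (((k * m + 1) * x : ℕ) : ℤ) = ((k * m * x : ℕ) : ℤ) + x := by push_cast; ring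
      rw [h9]
      have h10 : (0 : ℤ) ≤ ((∑ j, f j * d j : ℕ) : ℤ) := Int.natCast_nonneg _
      rw [abs_le] at h6 ⊢
      constructor
      · have h11 : (0 : ℤ) ≤ ((k * m * x : ℕ) : ℤ) := Int.natCast_nonneg _
        linarith [h6.1]
      · linarith [h6.2]
    have h6 := h3 x e3 (TF (T i) d F) hle hadm hsz X hXx
    have hgg : 0 ≤ gg (TF (T i) d F) x := by
      obtain ⟨c, hc, h⟩ := Pool.Agent.Y843.AC.HL.Sing_low (TF (T i) d F).card
      have h7 : 0 < Sing (TF (T i) d F) := lt_of_lt_of_le hc (h _ rfl hadm)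
      unfold gg
      positivity
    have h7 : min (c₂ / 2) (c₂ * c₃) * (X * gg (TF (T i) d F) x) ≤ c₂ * (X * VV (ZP (ZT (T i)) d F) 0 X) := by
      calc min (c₂ / 2) (c₂ * c₃) * (X * gg (TF (T i) d F) x) ≤ c₂ * c₃ * (X * gg (TF (T i) d F) x) :=
            mul_le_mul_of_nonneg_right (min_le_right _ _) (by positivity)
        _ = c₂ * (X * (c₃ * gg (TF (T i) d F) x)) := by ring
        _ ≤ c₂ * (X * VV (ZP (ZT (T i)) d F) 0 X) := by
            apply mul_le_mul_of_nonneg_left _ hc₂.le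
            apply mul_le_mul_of_nonneg_left _ hX0.le
            rw [hVe]
            exact h6
    refine h7.trans (hp3.trans ?_)
    have h8 : (S₁ i).filter (fun n => ∀ f ∈ F, n + ∑ j, f j * d j ∈ S₁ i) ⊆
        (S i).filter (fun n => ∀ f ∈ F, n + ∑ j, f j * d j ∈ S i) := by
      intro n hn
      rw [mem_filter] at hn ⊢
      exact ⟨s1 i hn.1, fun f hf => s1 i (hn.2 f hf)⟩
    exact_mod_cast card_le_card h8

end Pool.Agent.X26.MC
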