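import Pool.Agent.X26.GP.Rough
import Pool.Agent.Y843.AC.Top

/-!
# Common patterns of several dense sets: preparations
-/

set_option autoImplicit false

namespace Pool.Agent.X26.MC

open Finset
open Pool.Agent.Y843.HS
open Pool.Agent.Y843.AC (OK Av)
open Pool.Agent.X26.GP (ZP ZP_lt ZP_card_le)

variable {M m : ℕ}

/-- upper bound for the number of the integers of a window which avoid the classes -/
theorem upper (r : ℕ) {κ : ℝ} (hκ : 0 < κ) : ∃ C : ℝ, 0 < C ∧ ∃ X₀ : ℕ, ∀ X A : ℕ, X₀ ≤ X →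
    ∀ Z : ℕ → Finset ℕ, OK r κ X Z → ∀ S : Finset ℕ, S ⊆ Ioc A (A + X) → (∀ n ∈ S, Av κ X Z n) →
    (S.card : ℝ) ≤ C * (X * VV Z 0 ⌊(X : ℝ) ^ κ⌋₊) := by
  obtain ⟨C, hC, B, X₀, h⟩ := Pool.Agent.Y843.AC.upg_all r 1 κ hκ (fun _ => 0) (fun _ => 0)
    (fun i j hij => absurd (Subsingleton.elim i j) hij)
  obtain ⟨X₁, h1⟩ := log_pow_le B 1
  refine ⟨C, hC, max X₀ (max X₁ 1), fun X A hX Z hZ S hS hA => ?_⟩
  have hX0 : X₀ ≤ X := (le_max_left _ _).trans hX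
  have hX1 := h1 X ((le_max_left _ _).trans ((le_max_right _ _).trans hX))
  have hX2 : 1 ≤ X := (le_max_right _ _).trans ((le_max_right _ _).trans hX)
  have hXp : (0 : ℝ) < X := by exact_mod_cast hX2
  have h2 := h X A X hX0 (by linarith) Z hZ (S ×ˢ (Icc 1 X ×ˢ Icc 1 X)) (by
    rintro ⟨a, b, c⟩ ht
    rw [mem_product, mem_product] at ht
    refine ⟨hS ht.1, ht.2.1, ht.2.2, fun i => ?_⟩
    simpa using hA a ht.1)
  rw [card_product, card_product, Nat.card_Icc, Nat.add_sub_cancel, pow_one] at h2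
  push_cast at h2
  have h3 : (S.card : ℝ) * (X * X) ≤ (C * (X * VV Z 0 ⌊(X : ℝ) ^ κ⌋₊)) * (X * X) := by
    calc (S.card : ℝ) * (X * X) ≤ C * X * (X : ℝ) ^ 2 * VV Z 0 ⌊(X : ℝ) ^ κ⌋₊ := h2
      _ = _ := by ring
  exact le_of_mul_le_mul_right h3 (by positivity)

theorem VV_nonneg {Z : ℕ → Finset ℕ} (hZ : ∀ q, ∀ c ∈ Z q, c < q) (a b : ℕ) : 0 ≤ VV Z a b := by
  unfold VV
  exact prod_nonneg fun q _ => one_sub_nonneg (hZ q)

theorem VV_pos {r X : ℕ} {Z : ℕ → Finset ℕ} (hZ : OK r 1 X Z) : 0 < VV Z 0 X := by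
  unfold VV
  apply prod_pos
  intro q hq
  rw [Pr_mem] at hq
  have h := hZ q hq.2 (by rw [Real.rpow_one]; exact_mod_cast hq.1.2)
  have hq0 : (0 : ℝ) < q := by exact_mod_cast hq.2.pos
  rw [sub_pos, div_lt_one hq0]
  exact_mod_cast h.2.1

/-- comparison of the products -/
theorem VV_cmp (r : ℕ) {κ : ℝ} (hκ : 0 < κ) (hκ1 : κ ≤ 1) : ∃ c : ℝ, 0 < c ∧ ∃ X₀ : ℕ, ∀ X : ℕ, X₀ ≤ X →
    ∀ Z : ℕ → Finset ℕ, OK r 1 X Z → c * VV Z 0 ⌊(X : ℝ) ^ κ⌋₊ ≤ VV Z 0 X ∧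
      VV Z 0 X ≤ VV Z 0 ⌊(X : ℝ) ^ κ⌋₊ := by
  obtain ⟨L, hL⟩ : ∃ L : ℕ, L = ⌈2 / κ⌉₊ := ⟨_, rfl⟩
  obtain ⟨cD, hcD, R₀, hR₀⟩ := Pool.Agent.Y79.HS.den r L
  obtain ⟨X₂, hX₂⟩ := log_ge (Real.log (R₀ + r + 2) / κ)
  refine ⟨cD, hcD, max X₂ (max 2 (2 ^ L)), fun X hX Z hZ => ?_⟩
  have hX2 := hX₂ X ((le_max_left _ _).trans hX)
  have hX' := (le_max_right _ _).trans hX
  have hX3 : 2 ≤ X := (le_max_left _ _).trans hX'
  have hX4 : 2 ^ L ≤ X := (le_max_right _ _).trans hX'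
  have hX0 : (0 : ℝ) < X := by exact_mod_cast (show 0 < X by omega)
  have hX1' : (1 : ℝ) ≤ X := by exact_mod_cast (show 1 ≤ X by omega)
  obtain ⟨Y, hY⟩ : ∃ Y : ℕ, Y = ⌊(X : ℝ) ^ κ⌋₊ := ⟨_, rfl⟩
  have hXκ0 : 0 < (X : ℝ) ^ κ := by positivity
  have hXκ : (X : ℝ) ^ κ ≤ X := by
    calc (X : ℝ) ^ κ ≤ (X : ℝ) ^ (1 : ℝ) := Real.rpow_le_rpow_of_exponent_le hX1' hκ1
      _ = X := Real.rpow_one _
  have hYle : (Y : ℝ) ≤ (X : ℝ) ^ κ := by rw [hY]; exact Nat.floor_le hXκ0.le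
  have hYlt : (X : ℝ) ^ κ < Y + 1 := by rw [hY]; exact Nat.lt_floor_add_one _
  have hbig : ((R₀ : ℝ) + r + 2) ≤ (X : ℝ) ^ κ := by
    rw [Real.rpow_def_of_pos hX0, ← Real.log_le_iff_le_exp (by positivity)]
    rw [div_le_iff₀ hκ] at hX2
    exact hX2
  have hYR : R₀ + r + 1 ≤ Y := by
    have : ((R₀ + r + 1 : ℕ) : ℝ) ≤ Y := by
      push_cast
      linarith
    exact_mod_cast this
  have hYX : Y ≤ X := by exact_mod_cast hYle.trans hXκ
  have hXL : X ≤ Y ^ L := by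
    have hL1 : 2 / κ ≤ L := by rw [hL]; exact Nat.le_ceil _
    have hYhalf : (X : ℝ) ^ κ ≤ 2 * Y := by
      have : (1 : ℝ) ≤ Y := by exact_mod_cast (show 1 ≤ Y by omega)
      linarith
    have h2 : ((X : ℝ) ^ κ) ^ L ≤ (2 * (Y : ℝ)) ^ L := pow_le_pow_left₀ hXκ0.le hYhalf L
    have h3 : (X : ℝ) ^ 2 ≤ ((X : ℝ) ^ κ) ^ L := by
      rw [← Real.rpow_natCast ((X : ℝ) ^ κ) L, ← Real.rpow_mul hX0.le, ← Real.rpow_natCast (X : ℝ) 2]
      apply Real.rpow_le_rpow_of_exponent_le hX1'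
      rw [div_le_iff₀ hκ] at hL1
      push_cast
      linarith
    rw [mul_pow] at h2
    have h4 : (2 : ℝ) ^ L ≤ X := by exact_mod_cast hX4
    have h5 : (X : ℝ) * X ≤ X * (Y : ℝ) ^ L := by
      rw [← pow_two]
      refine (h3.trans h2).trans ?_
      exact mul_le_mul_of_nonneg_right h4 (by positivity)
    have h6 : (X : ℝ) ≤ (Y : ℝ) ^ L := le_of_mul_le_mul_left h5 hX0
    exact_mod_cast h6
  have hZX : ∀ q ∈ Pr 0 X, (Z q).card ≤ r ∧ (Z q).card < q ∧ ∀ c ∈ Z q, c < q := by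
    intro q hq
    have hq' := Pr_mem.1 hq
    apply hZ q hq'.2
    rw [Real.rpow_one]
    exact_mod_cast hq'.1.2
  have hV0 : 0 ≤ VV Z 0 Y := by
    unfold VV
    apply prod_nonneg
    intro q hq
    have hq' := Pr_mem.1 hq
    exact one_sub_nonneg (hZX q (Pr_mem.2 ⟨⟨hq'.1.1, by omega⟩, hq'.2⟩)).2.2
  have hden : cD ≤ VV Z Y X := hR₀ Y X (by omega) hXL Z (by
    intro p hp
    have hp' := Pr_mem.1 hp
    have := hZX p (Pr_mem.2 ⟨⟨by omega, hp'.1.2⟩, hp'.2⟩)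
    exact ⟨this.1, this.2.2⟩)
  have h1 : VV Z Y X ≤ 1 := by
    unfold VV
    apply Finset.prod_le_one
    · intro q hq
      have hq' := Pr_mem.1 hq
      exact one_sub_nonneg (hZX q (Pr_mem.2 ⟨⟨by omega, hq'.1.2⟩, hq'.2⟩)).2.2
    · intro q _
      have : (0 : ℝ) ≤ ((Z q).card : ℝ) / q := by positivity
      linarith
  rw [← hY, ← VV_split Z (Nat.zero_le Y) hYX]
  constructor
  · rw [mul_comm]
    exact mul_le_mul_of_nonneg_left hden hV0
  · exact mul_le_of_le_one_right hV0 h1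

theorem OK_mono {r r' X : ℕ} {κ : ℝ} {Z : ℕ → Finset ℕ} (hX : 1 ≤ X) (hκ : κ ≤ 1) (hr : r ≤ r')
    (h : OK r 1 X Z) : OK r' κ X Z := by
  intro p hp hpX
  have h1 := h p hp (hpX.trans (Real.rpow_le_rpow_of_exponent_le (by exact_mod_cast hX) hκ))
  exact ⟨h1.1.trans hr, h1.2⟩

theorem Av_mono {X : ℕ} {κ κ' : ℝ} {Z : ℕ → Finset ℕ} {n : ℕ} (hX : 1 ≤ X) (hκ : κ' ≤ κ) (h : Av κ X Z n) :
    Av κ' X Z n := by
  intro p hp hpX
  exact h p hp (hpX.trans (Real.rpow_le_rpow_of_exponent_le (by exact_mod_cast hX) hκ))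

/-- the upper bound with the product over all primes `≤ X` -/
theorem upperX (r : ℕ) {κ : ℝ} (hκ : 0 < κ) (hκ1 : κ ≤ 1) : ∃ C : ℝ, 1 ≤ C ∧ ∃ X₀ : ℕ, ∀ X A : ℕ, X₀ ≤ X →
    ∀ Z : ℕ → Finset ℕ, OK r 1 X Z → ∀ S : Finset ℕ, S ⊆ Ioc A (A + X) → (∀ n ∈ S, Av κ X Z n) →
    (S.card : ℝ) ≤ C * (X * VV Z 0 X) := by
  obtain ⟨C, hC, X₀, h⟩ := upper r hκ
  obtain ⟨c, hc, X₁, h1⟩ := VV_cmp r hκ hκ1
  refine ⟨max 1 (C / c), le_max_left _ _, max (max X₀ X₁) 1, fun X A hX Z hZ S hS hA => ?_⟩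
  have hX0 : X₀ ≤ X := (le_max_left _ _).trans ((le_max_left _ _).trans hX)
  have hX1 : X₁ ≤ X := (le_max_right _ _).trans ((le_max_left _ _).trans hX)
  have hX2 : 1 ≤ X := (le_max_right _ _).trans hX
  have h2 := h X A hX0 Z (OK_mono hX2 hκ1 le_rfl hZ) S hS hA
  have h3 := (h1 X hX1 Z hZ).1
  have hXp : (0 : ℝ) < X := by exact_mod_cast hX2
  have hV := VV_pos hZ
  calc (S.card : ℝ) ≤ C * (X * VV Z 0 ⌊(X : ℝ) ^ κ⌋₊) := h2
    _ = C / c * (X * (c * VV Z 0 ⌊(X : ℝ) ^ κ⌋₊)) := by field_simp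
    _ ≤ C / c * (X * VV Z 0 X) := by
        apply mul_le_mul_of_nonneg_left _ (by positivity)
        exact mul_le_mul_of_nonneg_left h3 hXp.le
    _ ≤ max 1 (C / c) * (X * VV Z 0 X) := mul_le_mul_of_nonneg_right (le_max_right _ _) (by positivity)

/-- the combined classes -/
def ZC (Z : Fin M → ℕ → Finset ℕ) (s : Fin M → ℕ) (q : ℕ) : Finset ℕ :=
  (range q).filter (fun u => ∃ i, (u + s i) % q ∈ Z i q)

theorem ZC_lt (Z : Fin M → ℕ → Finset ℕ) (s : Fin M → ℕ) (q : ℕ) : ∀ u ∈ ZC Z s q, u < q :=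
  fun _ hu => mem_range.1 (mem_filter.1 hu).1

/-- translation of a class -/
theorem tr_inv {q u b : ℕ} (hq : 0 < q) (hu : u < q) : ((u + b) % q + (q - b % q)) % q = u := by
  have h2 := Nat.mod_lt b hq
  have h3 : (u + b) % q + (q - b % q) ≡ u [MOD q] := by
    have h4 : (u + b) % q + (q - b % q) ≡ (u + b % q) + (q - b % q) [MOD q] := by
      apply Nat.ModEq.add_right
      exact (Nat.mod_modEq _ _).trans (Nat.ModEq.add_left _ (Nat.mod_modEq _ _).symm)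
    have h5 : (u + b % q) + (q - b % q) = u + q := by omega
    rw [h5] at h4
    refine h4.trans ?_
    unfold Nat.ModEq
    rw [Nat.add_mod_right]
  have h4 : ((u + b) % q + (q - b % q)) % q = u % q := h3
  rwa [Nat.mod_eq_of_lt hu] at h4

theorem tr_inv' {q u b : ℕ} (hq : 0 < q) (hu : u < q) : ((u + (q - b % q)) % q + b) % q = u := by
  have h2 := Nat.mod_lt b hq
  have h3 : (u + (q - b % q)) % q + b ≡ u [MOD q] := by
    have h4 : (u + (q - b % q)) % q + b ≡ (u + (q - b % q)) + b % q [MOD q] := by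
      exact (Nat.mod_modEq _ _).add (Nat.mod_modEq _ _).symm
    have h5 : (u + (q - b % q)) + b % q = u + q := by omega
    rw [h5] at h4
    refine h4.trans ?_
    unfold Nat.ModEq
    rw [Nat.add_mod_right]
  have h4 : ((u + (q - b % q)) % q + b) % q = u % q := h3
  rwa [Nat.mod_eq_of_lt hu] at h4

/-- the number of the combined classes, against that for smaller sets of classes -/
theorem ZC_diff (Z U : Fin M → ℕ → Finset ℕ) (s : Fin M → ℕ) {q : ℕ} (hq : 0 < q) (h : ∀ i, Z i q ⊆ U i q) :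
    (ZC U s q).card ≤ (ZC Z s q).card + ∑ i, ((U i q).card - (Z i q).card) := by
  classical
  have h1 : ZC U s q ⊆ ZC Z s q ∪ (univ : Finset (Fin M)).biUnion
      (fun i => (U i q \ Z i q).image (fun c => (c + (q - s i % q)) % q)) := by
    intro u hu
    unfold ZC at hu
    rw [mem_filter, mem_range] at hu
    obtain ⟨hu1, i, hi⟩ := hu
    rw [mem_union]
    by_cases hz : (u + s i) % q ∈ Z i q
    · left
      unfold ZC
      rw [mem_filter, mem_range]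
      exact ⟨hu1, i, hz⟩
    · right
      rw [mem_biUnion]
      refine ⟨i, mem_univ i, ?_⟩
      rw [mem_image]
      exact ⟨(u + s i) % q, mem_sdiff.2 ⟨hi, hz⟩, tr_inv hq hu1⟩
  refine (card_le_card h1).trans ((card_union_le _ _).trans ?_)
  apply Nat.add_le_add_left
  refine card_biUnion_le.trans (sum_le_sum fun i _ => ?_)
  refine card_image_le.trans ?_
  rw [card_sdiff_of_subset (h i)]

theorem ZC_card_le (U : Fin M → ℕ → Finset ℕ) (s : Fin M → ℕ) {q : ℕ} (hq : 0 < q) :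
    (ZC U s q).card ≤ ∑ i, (U i q).card := by
  have h := ZC_diff (fun _ _ => ∅) U s hq (fun i => empty_subset _)
  have e : (ZC (fun (_ : Fin M) (_ : ℕ) => (∅ : Finset ℕ)) s q).card = 0 := by
    rw [card_eq_zero]
    unfold ZC
    rw [filter_eq_empty_iff]
    intro u _
    simp
  rw [e] at h
  simpa using h

theorem card_le_ZC (U : Fin M → ℕ → Finset ℕ) (s : Fin M → ℕ) {q : ℕ} (hq : 0 < q) (i : Fin M)
    (hU : ∀ c ∈ U i q, c < q) : (U i q).card ≤ (ZC U s q).card := by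
  apply Finset.card_le_card_of_injOn (fun c => (c + (q - s i % q)) % q)
  · intro c hc
    rw [mem_coe] at hc ⊢
    unfold ZC
    rw [mem_filter, mem_range]
    refine ⟨Nat.mod_lt _ hq, i, ?_⟩
    rw [tr_inv' hq (hU c hc)]
    exact hc
  · intro c hc c' hc' h
    have e1 := tr_inv' (b := s i) hq (hU c hc)
    have e2 := tr_inv' (b := s i) hq (hU c' hc')
    simp only at h
    rw [← e1, ← e2, h]

/-- patterns in the combined classes -/
theorem ZP_ZC (Z : Fin M → ℕ → Finset ℕ) (s : Fin M → ℕ) (d : Fin m → ℕ) (F : Finset (Fin m → ℕ)) (q : ℕ) :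
    ZP (ZC Z s) d F q = ZC (fun i => ZP (Z i) d F) s q := by
  ext u
  unfold ZP ZC
  simp only [mem_filter, mem_range]
  constructor
  · rintro ⟨hu, f, hf, -, i, hi⟩
    refine ⟨hu, i, Nat.mod_lt _ (by omega), f, hf, ?_⟩
    rw [Nat.mod_add_mod] at hi ⊢
    have e : u + s i + ∑ j, f j * d j = u + ∑ j, f j * d j + s i := by ring
    rwa [e]
  · rintro ⟨hu, i, -, f, hf, hi⟩
    refine ⟨hu, f, hf, Nat.mod_lt _ (by omega), i, ?_⟩
    rw [Nat.mod_add_mod] at hi ⊢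
    have e : u + ∑ j, f j * d j + s i = u + s i + ∑ j, f j * d j := by ring
    rwa [e]

theorem sub_ZP (Z : ℕ → Finset ℕ) (d : Fin m → ℕ) (F : Finset (Fin m → ℕ)) (h0 : (fun _ => 0) ∈ F) {q : ℕ}
    (hZ : ∀ c ∈ Z q, c < q) : Z q ⊆ ZP Z d F q := by
  intro u hu
  unfold ZP
  rw [mem_filter, mem_range]
  refine ⟨hZ u hu, _, h0, ?_⟩
  simp only [zero_mul, sum_const_zero, add_zero]
  rw [Nat.mod_eq_of_lt (hZ u hu)]
  exact hu

end Pool.Agent.X26.MC
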