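import Pool.Agent.X26.MC.Loc

/-!
# Common patterns of several dense sets: double counting
-/

set_option autoImplicit false

namespace Pool.Agent.X26.MC

open Finset
open Pool.Agent.Y843.HS
open Pool.Agent.Y843.AC (OK Av)
open Pool.Agent.X26.GP (ZP ZP_lt ZP_card_le)

variable {M m : ℕ}

/-- comparison of the products of the combined classes -/
theorem VC_cmp (K : ℕ) : ∃ c : ℝ, 0 < c ∧ ∀ (M m : ℕ) (Z : Fin M → ℕ → Finset ℕ) (s : Fin M → ℕ) (d : Fin m → ℕ)
    (F : Finset (Fin m → ℕ)) (X : ℕ), (fun _ => 0) ∈ F →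
    (∀ q : ℕ, q.Prime → q ≤ X → (ZP (ZC Z s) d F q).card < q) →
    (∀ q : ℕ, q.Prime → q ≤ X → ∀ i, ∀ c ∈ Z i q, c < q) →
    (∀ q : ℕ, q.Prime → q ≤ X → ∑ i, (ZP (Z i) d F q).card ≤ K) →
    c * (VV (ZC Z s) 0 X * ∏ i, VV (ZP (Z i) d F) 0 X) ≤ VV (ZP (ZC Z s) d F) 0 X * ∏ i, VV (Z i) 0 X := by
  obtain ⟨c, hc, h⟩ := ee_prod K
  refine ⟨c, hc, ?_⟩
  intro M m Z s d F X h0 hb hZ hK
  have e1 : VV (ZC Z s) 0 X * ∏ i, VV (ZP (Z i) d F) 0 X =
      ∏ q ∈ Pr 0 X, ((1 - ((ZC Z s q).card : ℝ) / q) * ∏ i, (1 - ((ZP (Z i) d F q).card : ℝ) / q)) := by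
    unfold VV
    rw [prod_comm, ← prod_mul_distrib]
  have e2 : VV (ZP (ZC Z s) d F) 0 X * ∏ i, VV (Z i) 0 X =
      ∏ q ∈ Pr 0 X, ((1 - ((ZP (ZC Z s) d F q).card : ℝ) / q) * ∏ i, (1 - ((Z i q).card : ℝ) / q)) := by
    unfold VV
    rw [prod_comm, ← prod_mul_distrib]
  have hP : 0 ≤ VV (ZC Z s) 0 X * ∏ i, VV (ZP (Z i) d F) 0 X := by
    apply mul_nonneg
    · exact VV_nonneg (fun q => ZC_lt Z s q) 0 X
    · exact prod_nonneg fun i _ => VV_nonneg (fun q => ZP_lt (Z i) d F q) 0 X
  calc c * (VV (ZC Z s) 0 X * ∏ i, VV (ZP (Z i) d F) 0 X)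
      ≤ (∏ q ∈ Pr 0 X, ee K q) * (VV (ZC Z s) 0 X * ∏ i, VV (ZP (Z i) d F) 0 X) :=
        mul_le_mul_of_nonneg_right (h X) hP
    _ = ∏ q ∈ Pr 0 X, (ee K q * ((1 - ((ZC Z s q).card : ℝ) / q) * ∏ i, (1 - ((ZP (Z i) d F q).card : ℝ) / q))) := by
        rw [e1, ← prod_mul_distrib]
    _ ≤ _ := by
        rw [e2]
        apply Finset.prod_le_prod
        · intro q hq
          have hq' := Pr_mem.1 hq
          apply mul_nonneg (ee_pos hq'.1.1).le
          apply mul_nonneg (one_sub_nonneg (ZC_lt Z s q))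
          exact prod_nonneg fun i _ => one_sub_nonneg (ZP_lt (Z i) d F q)
        · intro q hq
          have hq' := Pr_mem.1 hq
          have hq0 : 0 < q := hq'.1.1
          have hbq := hb q hq'.2 hq'.1.2
          have hsub : ∀ i, Z i q ⊆ ZP (Z i) d F q := fun i => sub_ZP (Z i) d F h0 (hZ q hq'.2 hq'.1.2 i)
          have hcard : ∀ i, (ZP (Z i) d F q).card < q := by
            intro i
            have := card_le_ZC (fun i => ZP (Z i) d F) s hq0 i (ZP_lt (Z i) d F q)
            rw [ZP_ZC] at hbq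
            exact lt_of_le_of_lt this hbq
          apply loc_cmp K q (ZC Z s q).card (ZP (ZC Z s) d F q).card (fun i => (Z i q).card)
            (fun i => (ZP (Z i) d F q).card) hq0 hbq hcard (fun i => card_le_card (hsub i))
          · rw [ZP_ZC]
            exact ZC_diff Z (fun i => ZP (Z i) d F) s hq0 hsub
          · exact card_le_card (sub_ZP (ZC Z s) d F h0 (ZC_lt Z s q))
          · refine (ZC_card_le Z s hq0).trans ?_
            refine le_trans (sum_le_sum fun i _ => card_le_card (hsub i)) (hK q hq'.2 hq'.1.2)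
          · exact hK q hq'.2 hq'.1.2

open Classical in
/-- double counting over the shifts -/
theorem dc (P : Fin M → ℕ → Prop) (Bx : Fin M → Finset ℕ) (X : ℕ) :
    ∑ s ∈ Fintype.piFinset Bx, ((Ioc 0 X).filter (fun n => ∀ i, P i (n + s i))).card =
      ∑ n ∈ Ioc 0 X, ∏ i, ((Bx i).filter (fun t => P i (n + t))).card := by
  simp only [card_filter]
  rw [sum_comm]
  apply sum_congr rfl
  intro n _
  simp only [← card_filter]
  rw [← Fintype.card_piFinset]
  congr 1
  ext s
  rw [mem_filter, Fintype.mem_piFinset, Fintype.mem_piFinset]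
  simp only [mem_filter]
  constructor
  · rintro ⟨h1, h2⟩ i
    exact ⟨h1 i, h2 i⟩
  · intro h
    exact ⟨fun i => (h i).1, fun i => (h i).2⟩

open Classical in
theorem fib {A X n : ℕ} (hA : X ≤ A) (hn : n ∈ Ioc 0 X) {S : Finset ℕ} (hS : S ⊆ Ioc A (A + X)) :
    ((Ico (A - X) (A + X)).filter (fun t => n + t ∈ S)).card = S.card := by
  rw [mem_Ioc] at hn
  have h1 : ((Ico (A - X) (A + X)).filter (fun t => n + t ∈ S)).image (fun t => n + t) = S := by
    ext a
    rw [mem_image]
    constructor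
    · rintro ⟨t, ht, rfl⟩
      exact (mem_filter.1 ht).2
    · intro ha
      have := mem_Ioc.1 (hS ha)
      refine ⟨a - n, ?_, by omega⟩
      rw [mem_filter, mem_Ico]
      refine ⟨by omega, ?_⟩
      have e : n + (a - n) = a := by omega
      rw [e]
      exact ha
  conv_rhs => rw [← h1]
  rw [card_image_of_injective]
  intro a b h
  simp only at h
  omega

open Classical in
theorem fib_le {A X n : ℕ} (hA : X ≤ A) (hn : n ∈ Ioc 0 X) {P : ℕ → Prop} {R : ℝ}
    (h : ∀ A' : ℕ, (((Ioc A' (A' + X)).filter P).card : ℝ) ≤ R) :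
    (((Ico (A - X) (A + X)).filter (fun t => P (n + t))).card : ℝ) ≤ 3 * R := by
  rw [mem_Ioc] at hn
  have h1 : ((Ico (A - X) (A + X)).filter (fun t => P (n + t))).card ≤
      ((Ioc (A - X) (A - X + X)).filter P).card + ((Ioc A (A + X)).filter P).card +
        ((Ioc (A + X) (A + X + X)).filter P).card := by
    have h2 : ((Ico (A - X) (A + X)).filter (fun t => P (n + t))).image (fun t => n + t) ⊆
        ((Ioc (A - X) (A - X + X)).filter P ∪ (Ioc A (A + X)).filter P) ∪ (Ioc (A + X) (A + X + X)).filter P := by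
      intro a ha
      rw [mem_image] at ha
      obtain ⟨t, ht, rfl⟩ := ha
      rw [mem_filter, mem_Ico] at ht
      rw [mem_union, mem_union, mem_filter, mem_filter, mem_filter, mem_Ioc, mem_Ioc, mem_Ioc]
      rcases le_or_gt (n + t) A with h3 | h3
      · left; left
        exact ⟨by omega, ht.2⟩
      · rcases le_or_gt (n + t) (A + X) with h4 | h4
        · left; right
          exact ⟨by omega, ht.2⟩
        · right
          exact ⟨by omega, ht.2⟩
    have h3 := card_le_card h2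
    rw [card_image_of_injective _ (fun a b h => by have h' : n + a = n + b := h; omega)] at h3
    have h4 := card_union_le ((Ioc (A - X) (A - X + X)).filter P ∪ (Ioc A (A + X)).filter P)
      ((Ioc (A + X) (A + X + X)).filter P)
    have h5 := card_union_le ((Ioc (A - X) (A - X + X)).filter P) ((Ioc A (A + X)).filter P)
    omega
  have h2 : (((Ico (A - X) (A + X)).filter (fun t => P (n + t))).card : ℝ) ≤
      (((Ioc (A - X) (A - X + X)).filter P).card : ℝ) + ((Ioc A (A + X)).filter P).card +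
        ((Ioc (A + X) (A + X + X)).filter P).card := by exact_mod_cast h1
  have h3 := h (A - X)
  have h4 := h A
  have h5 := h (A + X)
  linarith

end Pool.Agent.X26.MC
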