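import Pool.Agent.X26.MC.Bas

/-!
# Common patterns of several dense sets: the local factors
-/

set_option autoImplicit false

namespace Pool.Agent.X26.MC

open Finset
open Pool.Agent.Y843.HS
open Pool.Agent.Y843.AC (OK Av)
open Pool.Agent.X26.GP (ZP ZP_lt ZP_card_le)

variable {M m : ℕ}

/-- the loss at the prime `q` -/
noncomputable def ee (K q : ℕ) : ℝ := if q ≤ 4 * K then 1 / (q : ℝ) else Real.exp (-(10 * (K : ℝ) ^ 2 / (q : ℝ) ^ 2))

theorem ee_pos {K q : ℕ} (hq : 0 < q) : 0 < ee K q := by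
  unfold ee
  split_ifs
  · have : (0 : ℝ) < q := by exact_mod_cast hq
    positivity
  · exact Real.exp_pos _

theorem exp_aux {y : ℝ} (hy : y ≤ 1 / 2) (hy2 : 0 ≤ y) : Real.exp (-(y + 2 * y ^ 2)) ≤ 1 - y := by
  have h0 : 0 < 1 + (y + 2 * y ^ 2) := by nlinarith [sq_nonneg y]
  have h1 := Real.add_one_le_exp (y + 2 * y ^ 2)
  have h2 : 1 ≤ (1 - y) * (1 + (y + 2 * y ^ 2)) := by
    nlinarith [mul_nonneg (sq_nonneg y) (by linarith : 0 ≤ 1 - 2 * y)]
  have h3 : 0 < 1 - y := by linarith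
  rw [Real.exp_neg, inv_le_iff_one_le_mul₀ (Real.exp_pos _)]
  calc 1 ≤ (1 - y) * (1 + (y + 2 * y ^ 2)) := h2
    _ ≤ (1 - y) * Real.exp (y + 2 * y ^ 2) := mul_le_mul_of_nonneg_left (by linarith) h3.le

/-- the comparison of the local factors -/
theorem loc_cmp (K q a b : ℕ) (α β : Fin M → ℕ) (hq : 0 < q) (hb : b < q) (hβ : ∀ i, β i < q)
    (hαβ : ∀ i, α i ≤ β i) (hba : b ≤ a + ∑ i, (β i - α i)) (hab : a ≤ b) (haK : a ≤ K) (hβK : ∑ i, β i ≤ K) :
    ee K q * ((1 - (a : ℝ) / q) * ∏ i, (1 - (β i : ℝ) / q)) ≤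
      (1 - (b : ℝ) / q) * ∏ i, (1 - (α i : ℝ) / q) := by
  have hq0 : (0 : ℝ) < q := by exact_mod_cast hq
  have hαq : ∀ i, 0 ≤ 1 - (α i : ℝ) / q := by
    intro i
    rw [sub_nonneg, div_le_one hq0]
    have h1 := hαβ i
    have h2 := hβ i
    exact_mod_cast (by omega : α i ≤ q)
  have hβq : ∀ i, 0 ≤ 1 - (β i : ℝ) / q := by
    intro i
    rw [sub_nonneg, div_le_one hq0]
    have h2 := hβ i
    exact_mod_cast h2.le
  have hle : ∀ i, 1 - (β i : ℝ) / q ≤ 1 - (α i : ℝ) / q := by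
    intro i
    have h1 : (α i : ℝ) ≤ β i := by exact_mod_cast hαβ i
    have := div_le_div_of_nonneg_right h1 hq0.le
    linarith
  have hPα : 0 ≤ ∏ i, (1 - (α i : ℝ) / q) := prod_nonneg fun i _ => hαq i
  have hPβ : 0 ≤ ∏ i, (1 - (β i : ℝ) / q) := prod_nonneg fun i _ => hβq i
  have ha1 : 1 - (a : ℝ) / q ≤ 1 := by
    have : (0 : ℝ) ≤ (a : ℝ) / q := by positivity
    linarith
  have ha0 : 0 ≤ 1 - (a : ℝ) / q := by
    rw [sub_nonneg, div_le_one hq0]
    exact_mod_cast (by omega : a ≤ q)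
  unfold ee
  split_ifs with hK
  · have h1 : 1 / (q : ℝ) ≤ 1 - (b : ℝ) / q := by
      have h2 : (1 : ℝ) - (b : ℝ) / q = ((q : ℝ) - b) / q := by field_simp
      rw [h2]
      apply div_le_div_of_nonneg_right _ hq0.le
      have : (b : ℝ) + 1 ≤ q := by exact_mod_cast hb
      linarith
    have h2 : (1 - (a : ℝ) / q) * ∏ i, (1 - (β i : ℝ) / q) ≤ 1 * ∏ i, (1 - (α i : ℝ) / q) :=
      mul_le_mul ha1 (Finset.prod_le_prod (fun i _ => hβq i) fun i _ => hle i) hPβ zero_le_one
    rw [one_mul] at h2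
    exact mul_le_mul h1 h2 (mul_nonneg ha0 hPβ) ((by positivity : (0 : ℝ) ≤ 1 / q).trans h1)
  · rw [not_le] at hK
    have hKr : 4 * (K : ℝ) ≤ q := by exact_mod_cast hK.le
    obtain ⟨σ, hσ⟩ : ∃ σ : ℕ, σ = ∑ i, (β i - α i) := ⟨_, rfl⟩
    have hσK : σ ≤ K := by
      rw [hσ]
      refine le_trans (sum_le_sum fun i _ => ?_) hβK
      omega
    have hσr : (σ : ℝ) = ∑ i, ((β i : ℝ) - α i) := by
      rw [hσ]
      push_cast
      refine sum_congr rfl fun i _ => ?_
      rw [Nat.cast_sub (hαβ i)]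
    -- the product over `i`
    have h1 : ∏ i, (1 - (β i : ℝ) / q) ≤ (∏ i, (1 - (α i : ℝ) / q)) * Real.exp (-((σ : ℝ) / q)) := by
      have e : Real.exp (-((σ : ℝ) / q)) = ∏ i : Fin M, Real.exp (-(((β i : ℝ) - α i) / q)) := by
        rw [← Real.exp_sum, hσr, sum_div, sum_neg_distrib]
      rw [e, ← prod_mul_distrib]
      apply Finset.prod_le_prod (fun i _ => hβq i)
      intro i _
      have h2 : 1 - ((β i : ℝ) - α i) / q ≤ Real.exp (-(((β i : ℝ) - α i) / q)) := by
        have := Real.add_one_le_exp (-(((β i : ℝ) - α i) / q))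
        linarith
      have h3 : 1 - (β i : ℝ) / q ≤ (1 - (α i : ℝ) / q) * (1 - ((β i : ℝ) - α i) / q) := by
        have h4 : 0 ≤ (α i : ℝ) / q * (((β i : ℝ) - α i) / q) := by
          have : (α i : ℝ) ≤ β i := by exact_mod_cast hαβ i
          have h5 : 0 ≤ (β i : ℝ) - α i := by linarith
          positivity
        have h5 : (1 - (α i : ℝ) / q) * (1 - ((β i : ℝ) - α i) / q) =
            1 - (β i : ℝ) / q + (α i : ℝ) / q * (((β i : ℝ) - α i) / q) := by
          field_simp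
          ring
        rw [h5]
        linarith
      exact h3.trans (mul_le_mul_of_nonneg_left h2 (hαq i))
    -- the factor with `a`, `b`
    have hbr : (b : ℝ) ≤ a + σ := by
      rw [hσ]
      exact_mod_cast hba
    have har : (a : ℝ) ≤ K := by exact_mod_cast haK
    have hσr2 : (σ : ℝ) ≤ K := by exact_mod_cast hσK
    have ha00 : (0 : ℝ) ≤ a := Nat.cast_nonneg _
    have hσ0 : (0 : ℝ) ≤ σ := Nat.cast_nonneg _
    have hqa : (q : ℝ) / 2 ≤ q - a := by linarith
    have hqa0 : (0 : ℝ) < q - a := by linarith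
    obtain ⟨y, hy⟩ : ∃ y : ℝ, y = (σ : ℝ) / (q - a) := ⟨_, rfl⟩
    have hy0 : 0 ≤ y := by rw [hy]; positivity
    have hy2 : y ≤ 2 * (K / q) := by
      rw [hy]
      calc (σ : ℝ) / (q - a) ≤ K / ((q : ℝ) / 2) := by gcongr
        _ = 2 * (K / q) := by field_simp
    have hKq : (K : ℝ) / q ≤ 1 / 4 := by
      rw [div_le_div_iff₀ hq0 (by norm_num)]
      linarith
    have hKq0 : 0 ≤ (K : ℝ) / q := by positivity
    have hyh : y ≤ 1 / 2 := by linarith
    have h2 := exp_aux hyh hy0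
    have h3 : (1 - (a : ℝ) / q) * (1 - y) ≤ 1 - (b : ℝ) / q := by
      have e : (1 - (a : ℝ) / q) * (1 - y) = 1 - ((a : ℝ) + σ) / q := by
        rw [hy]
        field_simp
        ring
      rw [e]
      have := div_le_div_of_nonneg_right hbr hq0.le
      linarith
    have h4 : -((σ : ℝ) / q) - 10 * (K : ℝ) ^ 2 / (q : ℝ) ^ 2 ≤ -(y + 2 * y ^ 2) := by
      have e1 : y = (σ : ℝ) / q + y * (a / q) := by
        rw [hy]
        field_simp
        ring
      have e2 : y * ((a : ℝ) / q) ≤ 2 * (K / q) * (K / q) := by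
        apply mul_le_mul hy2 _ (by positivity) (by positivity)
        exact div_le_div_of_nonneg_right har hq0.le
      have e3 : y ^ 2 ≤ (2 * (K / q)) ^ 2 := pow_le_pow_left₀ hy0 hy2 2
      have e4 : 10 * (K : ℝ) ^ 2 / (q : ℝ) ^ 2 = 10 * ((K / q) * (K / q)) := by
        field_simp
      rw [e4]
      nlinarith
    have h5 : Real.exp (-(10 * (K : ℝ) ^ 2 / (q : ℝ) ^ 2)) * Real.exp (-((σ : ℝ) / q)) ≤ 1 - y := by
      rw [← Real.exp_add]
      refine le_trans (Real.exp_le_exp.2 ?_) h2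
      linarith
    calc Real.exp (-(10 * (K : ℝ) ^ 2 / (q : ℝ) ^ 2)) * ((1 - (a : ℝ) / q) * ∏ i, (1 - (β i : ℝ) / q))
        ≤ Real.exp (-(10 * (K : ℝ) ^ 2 / (q : ℝ) ^ 2)) * ((1 - (a : ℝ) / q) *
          ((∏ i, (1 - (α i : ℝ) / q)) * Real.exp (-((σ : ℝ) / q)))) := by gcongr
      _ = (1 - (a : ℝ) / q) * (Real.exp (-(10 * (K : ℝ) ^ 2 / (q : ℝ) ^ 2)) * Real.exp (-((σ : ℝ) / q))) *
          ∏ i, (1 - (α i : ℝ) / q) := by ring
      _ ≤ (1 - (a : ℝ) / q) * (1 - y) * ∏ i, (1 - (α i : ℝ) / q) := by gcongr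
      _ ≤ _ := mul_le_mul_of_nonneg_right h3 hPα

/-- the product of the losses -/
theorem ee_prod (K : ℕ) : ∃ c : ℝ, 0 < c ∧ ∀ X : ℕ, c ≤ ∏ q ∈ Pr 0 X, ee K q := by
  refine ⟨(∏ q ∈ Icc 1 (4 * K), 1 / (q : ℝ)) * Real.exp (-(20 * (K : ℝ) ^ 2)), ?_, fun X => ?_⟩
  · apply mul_pos _ (Real.exp_pos _)
    apply prod_pos
    intro q hq
    have : (0 : ℝ) < q := by exact_mod_cast (mem_Icc.1 hq).1
    positivity
  · rw [← prod_filter_mul_prod_filter_not (Pr 0 X) (fun q => q ≤ 4 * K)]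
    apply mul_le_mul
    · have h1 : ∏ q ∈ (Pr 0 X).filter (fun q => q ≤ 4 * K), ee K q =
          ∏ q ∈ (Pr 0 X).filter (fun q => q ≤ 4 * K), 1 / (q : ℝ) := by
        apply prod_congr rfl
        intro q hq
        unfold ee
        rw [if_pos (mem_filter.1 hq).2]
      rw [h1]
      have hsub : (Pr 0 X).filter (fun q => q ≤ 4 * K) ⊆ Icc 1 (4 * K) := by
        intro q hq
        rw [mem_filter, Pr_mem] at hq
        rw [mem_Icc]
        exact ⟨hq.1.1.1, hq.2⟩
      rw [← prod_sdiff hsub]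
      have h2 : ∏ q ∈ Icc 1 (4 * K) \ (Pr 0 X).filter (fun q => q ≤ 4 * K), 1 / (q : ℝ) ≤ 1 := by
        apply prod_le_one
        · intro q _
          positivity
        · intro q hq
          have : (1 : ℝ) ≤ q := by exact_mod_cast (mem_Icc.1 (mem_sdiff.1 hq).1).1
          rw [div_le_one (by linarith)]
          exact this
      apply mul_le_of_le_one_left _ h2
      exact prod_nonneg fun q _ => by positivity
    · have h1 : ∏ q ∈ (Pr 0 X).filter (fun q => ¬ q ≤ 4 * K), ee K q =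
          Real.exp (∑ q ∈ (Pr 0 X).filter (fun q => ¬ q ≤ 4 * K), -(10 * (K : ℝ) ^ 2 / (q : ℝ) ^ 2)) := by
        rw [Real.exp_sum]
        apply prod_congr rfl
        intro q hq
        unfold ee
        rw [if_neg (mem_filter.1 hq).2]
      rw [h1]
      apply Real.exp_le_exp.2
      rw [sum_neg_distrib, neg_le_neg_iff]
      calc ∑ q ∈ (Pr 0 X).filter (fun q => ¬ q ≤ 4 * K), 10 * (K : ℝ) ^ 2 / (q : ℝ) ^ 2
          ≤ ∑ q ∈ Icc 1 X, 10 * (K : ℝ) ^ 2 / (q : ℝ) ^ 2 := by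
            apply sum_le_sum_of_subset_of_nonneg
            · intro q hq
              rw [mem_filter, Pr_mem] at hq
              rw [mem_Icc]
              exact ⟨hq.1.1.1, hq.1.1.2⟩
            · intro q _ _
              positivity
        _ = 10 * (K : ℝ) ^ 2 * ∑ q ∈ Icc 1 X, 1 / (q : ℝ) ^ 2 := by
            rw [mul_sum]
            refine sum_congr rfl fun q _ => ?_
            ring
        _ ≤ 10 * (K : ℝ) ^ 2 * 2 := by
            apply mul_le_mul_of_nonneg_left _ (by positivity)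
            have key : ∀ n : ℕ, ∑ q ∈ Icc 1 (n + 1), 1 / (q : ℝ) ^ 2 ≤ 2 - 1 / ((n : ℝ) + 1) := by
              intro n
              induction n with
              | zero => norm_num
              | succ n ih =>
                rw [sum_Icc_succ_top (by omega)]
                have hn : (0 : ℝ) ≤ n := Nat.cast_nonneg n
                have h3 : 1 / (((n + 1 + 1 : ℕ) : ℝ)) ^ 2 ≤ 1 / ((n : ℝ) + 1) - 1 / (((n + 1 : ℕ) : ℝ) + 1) := by
                  push_cast
                  rw [div_sub_div _ _ (by positivity) (by positivity), div_le_div_iff₀ (by positivity) (by positivity)]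
                  nlinarith
                linarith
            rcases Nat.eq_zero_or_pos X with h | h
            · rw [h]
              norm_num
            · obtain ⟨n, rfl⟩ : ∃ n, X = n + 1 := ⟨X - 1, by omega⟩
              have := key n
              have h4 : (0 : ℝ) ≤ 1 / ((n : ℝ) + 1) := by positivity
              linarith
        _ = 20 * (K : ℝ) ^ 2 := by ring
    · exact (Real.exp_pos _).le
    · exact prod_nonneg fun q hq => (ee_pos (Pr_mem.1 (mem_filter.1 hq).1).1.1).le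

end Pool.Agent.X26.MC
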