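import Pool.Agent.X26.MC.Cnt

/-!
# Common patterns of several dense sets: the theorem
-/

set_option autoImplicit false

namespace Pool.Agent.X26.MC

open Finset
open Pool.Agent.Y843.HS
open Pool.Agent.Y843.AC (OK Av)
open Pool.Agent.X26.GP (ZP ZP_lt ZP_card_le genX pat)

variable {M m : ℕ}

open Classical in
/-- all patterns in several dense sets, for windows far from `0` -/
theorem multi0 (M m k r : ℕ) {κ δ : ℝ} (hκ : 0 < κ) (hκ1 : κ ≤ 1) (hδ : 0 < δ) : ∃ c : ℝ, 0 < c ∧ ∃ B X₀ : ℕ,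
    ∀ X D : ℕ, X₀ ≤ X → Real.log X ^ B ≤ D → D ≤ X → ∀ (A : Fin M → ℕ) (Z : Fin M → ℕ → Finset ℕ)
    (S : Fin M → Finset ℕ), (∀ i, X ≤ A i) → (∀ i, OK r 1 X (Z i)) → (∀ i, S i ⊆ Ioc (A i) (A i + X)) →
    (∀ i, ∀ n ∈ S i, Av κ X (Z i) n) → (∀ i, δ * (X * VV (Z i) 0 X) ≤ ((S i).card : ℝ)) →
    ∃ G ⊆ Fintype.piFinset (fun _ : Fin m => Icc 1 D), c * (D : ℝ) ^ m ≤ (G.card : ℝ) ∧ ∀ d ∈ G,
      ∀ F : Finset (Fin m → ℕ), (∀ f ∈ F, ∀ i, f i < k) → (fun _ => 0) ∈ F →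
      (pat d F).card = F.card ∧ ∀ i,
      (∀ q : ℕ, q.Prime → q ≤ X → (ZP (Z i) d F q).card < q) ∧
      c * (X * VV (ZP (Z i) d F) 0 X) ≤
        (((S i).filter (fun n => ∀ f ∈ F, n + ∑ j, f j * d j ∈ S i)).card : ℝ) := by
  obtain ⟨κ₀, hκ₀, -, hrough⟩ := Pool.Agent.X26.GP.rough (M * r)
  obtain ⟨κ', hκ'⟩ : ∃ κ' : ℝ, κ' = min κ κ₀ := ⟨_, rfl⟩
  have hκ'0 : 0 < κ' := by rw [hκ']; exact lt_min hκ hκ₀
  have hκ'κ : κ' ≤ κ := by rw [hκ']; exact min_le_left _ _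
  have hκ'κ₀ : κ' ≤ κ₀ := by rw [hκ']; exact min_le_right _ _
  have hκ'1 : κ' ≤ 1 := hκ'κ.trans hκ1
  obtain ⟨X₁, hR⟩ := hrough κ' hκ'0 hκ'κ₀
  obtain ⟨C, hC1, X₂, hU⟩ := upperX r hκ'0 hκ'1
  obtain ⟨C', hC'1, X₃, hU'⟩ := upperX (M * r) hκ'0 hκ'1
  obtain ⟨C'', hC''1, X₄, hU''⟩ := upperX (k ^ m * r) hκ'0 hκ'1
  obtain ⟨cV, hcV, X₇, hVV⟩ := VV_cmp (M * r) hκ'0 hκ'1
  have hC0 : 0 < C := by linarith
  have hC'0 : 0 < C' := by linarith
  have hC''0 : 0 < C'' := by linarith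
  obtain ⟨δ', hδ'⟩ : ∃ δ' : ℝ, δ' = (δ / (3 * C)) ^ M / 4 := ⟨_, rfl⟩
  have hδ'0 : 0 < δ' := by rw [hδ']; positivity
  obtain ⟨c₁, hc₁, B, X₅, hG⟩ := genX m k (M * r) hκ'0 hκ'1 hδ'0
  obtain ⟨c₂, hc₂, hVc⟩ := VC_cmp (M * (k ^ m * r))
  obtain ⟨X₆, hX₆⟩ := log_ge (Real.log (M * r + 1) / κ')
  obtain ⟨c₃, hc₃⟩ : ∃ c₃ : ℝ, c₃ = c₁ ^ 2 * c₂ * δ ^ M / (4 * C') := ⟨_, rfl⟩
  have hc₃0 : 0 < c₃ := by rw [hc₃]; positivity
  refine ⟨min (c₁ / 4) (c₃ / C'' ^ M), lt_min (by positivity) (by positivity), B,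
    max (max (max X₁ X₂) (max X₃ X₄)) (max (max X₅ X₆) (max X₇ 1)), ?_⟩
  intro X D hX hBD hDX A Z S hA hZ hS hSZ hSc
  have x1 : X₁ ≤ X := le_trans (le_trans (le_trans (le_max_left _ _) (le_max_left _ _)) (le_max_left _ _)) hX
  have x2 : X₂ ≤ X := le_trans (le_trans (le_trans (le_max_right _ _) (le_max_left _ _)) (le_max_left _ _)) hX
  have x3 : X₃ ≤ X := le_trans (le_trans (le_trans (le_max_left _ _) (le_max_right _ _)) (le_max_left _ _)) hX
  have x4 : X₄ ≤ X := le_trans (le_trans (le_trans (le_max_right _ _) (le_max_right _ _)) (le_max_left _ _)) hX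
  have x5 : X₅ ≤ X := le_trans (le_trans (le_trans (le_max_left _ _) (le_max_left _ _)) (le_max_right _ _)) hX
  have x6 : X₆ ≤ X := le_trans (le_trans (le_trans (le_max_right _ _) (le_max_left _ _)) (le_max_right _ _)) hX
  have x7 : X₇ ≤ X := le_trans (le_trans (le_trans (le_max_left _ _) (le_max_right _ _)) (le_max_right _ _)) hX
  have x8 : 1 ≤ X := le_trans (le_trans (le_trans (le_max_right _ _) (le_max_right _ _)) (le_max_right _ _)) hX
  have hX0 : (0 : ℝ) < X := by exact_mod_cast x8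
  have hMr : ((M * r : ℕ) : ℝ) < (X : ℝ) ^ κ' := by
    have h1 := hX₆ X x6
    rw [div_le_iff₀ hκ'0] at h1
    have h2 : ((M : ℝ) * r + 1) ≤ (X : ℝ) ^ κ' := by
      rw [Real.rpow_def_of_pos hX0, ← Real.log_le_iff_le_exp (by positivity)]
      exact h1
    push_cast
    linarith
  obtain ⟨V, hVd⟩ : ∃ V : Fin M → ℝ, V = fun i => VV (Z i) 0 X := ⟨_, rfl⟩
  have hV0 : ∀ i, 0 < V i := fun i => by rw [hVd]; exact VV_pos (hZ i)
  have hSc' : ∀ i, δ * (X * V i) ≤ ((S i).card : ℝ) := fun i => by rw [hVd]; exact hSc i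
  have hSpos : ∀ i, 0 < ((S i).card : ℝ) := fun i => lt_of_lt_of_le (by have := hV0 i; positivity) (hSc' i)
  obtain ⟨P₁, hP₁⟩ : ∃ P₁ : ℝ, P₁ = ∏ i, ((S i).card : ℝ) := ⟨_, rfl⟩
  have hP₁0 : 0 < P₁ := by rw [hP₁]; exact prod_pos fun i _ => hSpos i
  obtain ⟨pi, hpi⟩ : ∃ pi : Finset (Fin M → ℕ), pi = Fintype.piFinset (fun i => Ico (A i - X) (A i + X)) := ⟨_, rfl⟩
  obtain ⟨T, hT⟩ : ∃ T : (Fin M → ℕ) → Finset ℕ, T = fun s => (Ioc 0 X).filter (fun n => ∀ i, n + s i ∈ S i) := ⟨_, rfl⟩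
  -- the general double count
  have hcount : ∀ S' : Fin M → Finset ℕ, (∀ i, S' i ⊆ S i) →
      ∑ s ∈ pi, ((((Ioc 0 X).filter (fun n => ∀ i, n + s i ∈ S' i)).card : ℕ) : ℝ) = X * ∏ i, ((S' i).card : ℝ) := by
    intro S' hS'
    have h1 : ∑ s ∈ pi, ((Ioc 0 X).filter (fun n => ∀ i, n + s i ∈ S' i)).card =
        ∑ n ∈ Ioc 0 X, ∏ i, (S' i).card := by
      have h3 := dc (fun i a => a ∈ S' i) (fun i => Ico (A i - X) (A i + X)) X
      rw [← hpi] at h3
      refine Eq.trans ?_ (h3.trans ?_)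
      · refine sum_congr rfl fun s _ => ?_
        congr!
      · refine sum_congr rfl fun n hn => prod_congr rfl fun i _ => ?_
        refine Eq.trans ?_ (fib (hA i) hn ((hS' i).trans (hS i)))
        congr!
    rw [sum_const, Nat.card_Ioc, smul_eq_mul, Nat.sub_zero] at h1
    exact_mod_cast h1
  have hsumT : ∑ s ∈ pi, ((T s).card : ℝ) = X * P₁ := by
    rw [hT, hP₁]
    exact hcount S (fun i => Subset.rfl)
  have hTmem : ∀ s n, n ∈ T s ↔ n ∈ Ioc 0 X ∧ ∀ i, n + s i ∈ S i := by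
    intro s n
    rw [hT]
    exact mem_filter
  have hZCnot : ∀ s, ∀ n ∈ T s, ∀ p : ℕ, p.Prime → (p : ℝ) ≤ (X : ℝ) ^ κ' → n % p ∉ ZC Z s p := by
    intro s n hn p hp hpX hcon
    unfold ZC at hcon
    rw [mem_filter] at hcon
    obtain ⟨-, i, hi⟩ := hcon
    rw [Nat.mod_add_mod] at hi
    have h1 := (hTmem s n).1 hn
    exact Av_mono x8 hκ'κ (hSZ i _ (h1.2 i)) p hp hpX hi
  have hcardr : ∀ s, ∀ p : ℕ, p.Prime → (p : ℝ) ≤ (X : ℝ) ^ (1 : ℝ) → (ZC Z s p).card ≤ M * r := by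
    intro s p hp hpX
    refine (ZC_card_le Z s hp.pos).trans ?_
    refine (sum_le_sum fun i _ => (hZ i p hp hpX).1).trans ?_
    rw [sum_const, card_univ, Fintype.card_fin, smul_eq_mul]
  have hOK : ∀ s, (T s).Nonempty → OK (M * r) 1 X (ZC Z s) := by
    rintro s ⟨n, hn⟩ p hp hpX
    refine ⟨hcardr s p hp hpX, ?_, ZC_lt Z s p⟩
    rcases le_or_gt (p : ℝ) ((X : ℝ) ^ κ') with h | h
    · have h1 := hZCnot s n hn p hp h
      have h2 : ZC Z s p ⊆ (range p).erase (n % p) := by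
        intro u hu
        rw [mem_erase, mem_range]
        refine ⟨?_, ZC_lt Z s p u hu⟩
        rintro rfl
        exact h1 hu
      have h3 := card_le_card h2
      rw [card_erase_of_mem (mem_range.2 (Nat.mod_lt _ hp.pos)), card_range] at h3
      have := hp.pos
      omega
    · have h1 := hcardr s p hp hpX
      have h2 : ((M * r : ℕ) : ℝ) < p := hMr.trans h
      have h3 : M * r < p := by exact_mod_cast h2
      omega
  have hTsub : ∀ s, T s ⊆ Ioc 0 (0 + X) := by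
    intro s n hn
    rw [zero_add]
    exact ((hTmem s n).1 hn).1
  have hAvT : ∀ s, ∀ n ∈ T s, Av κ' X (ZC Z s) n := fun s n hn p hp hpX => hZCnot s n hn p hp hpX
  have hZlt : ∀ q : ℕ, q.Prime → q ≤ X → ∀ i, ∀ c ∈ Z i q, c < q := by
    intro q hq hqX i
    exact (hZ i q hq (by rw [Real.rpow_one]; exact_mod_cast hqX)).2.2
  -- the first moment
  have hFM : ∑ s ∈ pi.filter (fun s => OK (M * r) 1 X (ZC Z s)), VV (ZC Z s) 0 X ≤ 2 * ((3 * C) ^ M * ∏ i, (X * V i)) := by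
    have h1 : ∀ s ∈ pi.filter (fun s => OK (M * r) 1 X (ZC Z s)), 1 / 2 * (X * VV (ZC Z s) 0 X) ≤
        ((((Ioc 0 X).filter (fun n => ∀ i, Av κ' X (Z i) (n + s i))).card : ℕ) : ℝ) := by
      intro s hs
      have hs' := (mem_filter.1 hs).2
      have h2 := hR X 0 x1 (ZC Z s) (OK_mono x8 hκ'1 le_rfl hs')
      have h3 := (hVV X x7 (ZC Z s) hs').2
      refine le_trans ?_ (h2.trans ?_)
      · apply mul_le_mul_of_nonneg_left _ (by norm_num)
        exact mul_le_mul_of_nonneg_left h3 hX0.le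
      · refine Nat.cast_le.2 (card_le_card ?_)
        intro n hn
        rw [mem_filter, zero_add] at hn
        rw [mem_filter]
        refine ⟨hn.1, fun i p hp hpX hcon => ?_⟩
        apply hn.2 p hp hpX
        unfold ZC
        rw [mem_filter, mem_range]
        refine ⟨Nat.mod_lt _ hp.pos, i, ?_⟩
        rwa [Nat.mod_add_mod]
    have h2 := sum_le_sum h1
    rw [← mul_sum, ← mul_sum] at h2
    have h3 : ∑ s ∈ pi.filter (fun s => OK (M * r) 1 X (ZC Z s)),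
        ((((Ioc 0 X).filter (fun n => ∀ i, Av κ' X (Z i) (n + s i))).card : ℕ) : ℝ) ≤
        ∑ s ∈ pi, ((((Ioc 0 X).filter (fun n => ∀ i, Av κ' X (Z i) (n + s i))).card : ℕ) : ℝ) :=
      sum_le_sum_of_subset_of_nonneg (filter_subset _ _) (fun _ _ _ => Nat.cast_nonneg _)
    have h4 := dc (fun i a => Av κ' X (Z i) a) (fun i => Ico (A i - X) (A i + X)) X
    rw [← hpi] at h4
    have h5 : ∑ s ∈ pi, ((((Ioc 0 X).filter (fun n => ∀ i, Av κ' X (Z i) (n + s i))).card : ℕ) : ℝ) =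
        ∑ n ∈ Ioc 0 X, ∏ i, ((((Ico (A i - X) (A i + X)).filter (fun t => Av κ' X (Z i) (n + t))).card : ℕ) : ℝ) := by
      exact_mod_cast h4
    have h6 : ∑ n ∈ Ioc 0 X, ∏ i, ((((Ico (A i - X) (A i + X)).filter (fun t => Av κ' X (Z i) (n + t))).card : ℕ) : ℝ) ≤
        ∑ n ∈ Ioc 0 X, ∏ i, (3 * (C * (X * V i))) := by
      refine sum_le_sum fun n hn => Finset.prod_le_prod (fun i _ => Nat.cast_nonneg _) fun i _ => ?_
      apply fib_le (hA i) hn
      intro A'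
      rw [hVd]
      exact hU X A' x2 (Z i) (hZ i) _ (filter_subset _ _) (fun a ha => (mem_filter.1 ha).2)
    rw [sum_const, Nat.card_Ioc, nsmul_eq_mul, Nat.sub_zero] at h6
    have h7 : ∏ i, (3 * (C * (X * V i))) = (3 * C) ^ M * ∏ i, (X * V i) := by
      have e : ∀ i, 3 * (C * (X * V i)) = (3 * C) * (X * V i) := fun i => by ring
      simp only [e]
      rw [prod_mul_distrib, prod_const, card_univ, Fintype.card_fin]
    rw [h7] at h6
    have h8 : (1 / 2 : ℝ) * (X * ∑ s ∈ pi.filter (fun s => OK (M * r) 1 X (ZC Z s)), VV (ZC Z s) 0 X) ≤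
        X * ((3 * C) ^ M * ∏ i, (X * V i)) := by
      refine h2.trans (h3.trans ?_)
      rw [h5]
      exact h6
    have h9 : (X : ℝ) * ∑ s ∈ pi.filter (fun s => OK (M * r) 1 X (ZC Z s)), VV (ZC Z s) 0 X ≤
        X * (2 * ((3 * C) ^ M * ∏ i, (X * V i))) := by linarith
    exact le_of_mul_le_mul_left h9 hX0
  have hXV : δ ^ M * ∏ i, (X * V i) ≤ P₁ := by
    have h1 : δ ^ M * ∏ i, (X * V i) = ∏ i, (δ * (X * V i)) := by
      have e : ∏ i, (δ * (X * V i)) = (∏ _i : Fin M, δ) * ∏ i, (X * V i) := prod_mul_distrib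
      rw [e, prod_const, card_univ, Fintype.card_fin]
    rw [h1, hP₁]
    exact Finset.prod_le_prod (fun i _ => by have := hV0 i; positivity) fun i _ => hSc' i
  -- the good shifts
  obtain ⟨Gd, hGd⟩ : ∃ Gd : Finset (Fin M → ℕ), Gd = pi.filter (fun s => (T s).Nonempty ∧
      δ' * (X * VV (ZC Z s) 0 X) ≤ ((T s).card : ℝ)) := ⟨_, rfl⟩
  have hgood : X * P₁ / 2 ≤ ∑ s ∈ Gd, ((T s).card : ℝ) := by
    have h1 : ∑ s ∈ pi.filter (fun s => ¬ ((T s).Nonempty ∧ δ' * (X * VV (ZC Z s) 0 X) ≤ ((T s).card : ℝ))),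
        ((T s).card : ℝ) ≤ X * P₁ / 2 := by
      have h2 : ∀ s ∈ pi.filter (fun s => ¬ ((T s).Nonempty ∧ δ' * (X * VV (ZC Z s) 0 X) ≤ ((T s).card : ℝ))),
          ((T s).card : ℝ) ≤ if OK (M * r) 1 X (ZC Z s) then δ' * (X * VV (ZC Z s) 0 X) else 0 := by
        intro s hs
        rw [mem_filter, not_and] at hs
        rcases (T s).eq_empty_or_nonempty with h3 | h3
        · rw [h3, card_empty, Nat.cast_zero]
          split_ifs with h4
          · have := VV_pos h4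
            positivity
          · exact le_rfl
        · rw [if_pos (hOK s h3)]
          exact (not_le.1 (hs.2 h3)).le
      calc _ ≤ ∑ s ∈ pi.filter (fun s => ¬ ((T s).Nonempty ∧ δ' * (X * VV (ZC Z s) 0 X) ≤ ((T s).card : ℝ))),
            (if OK (M * r) 1 X (ZC Z s) then δ' * (X * VV (ZC Z s) 0 X) else 0) := sum_le_sum h2
        _ ≤ ∑ s ∈ pi, (if OK (M * r) 1 X (ZC Z s) then δ' * (X * VV (ZC Z s) 0 X) else 0) := by
            apply sum_le_sum_of_subset_of_nonneg (filter_subset _ _)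
            intro s _ _
            split_ifs with h4
            · have := VV_pos h4
              positivity
            · exact le_rfl
        _ = δ' * (X * ∑ s ∈ pi.filter (fun s => OK (M * r) 1 X (ZC Z s)), VV (ZC Z s) 0 X) := by
            rw [← sum_filter, ← mul_sum, ← mul_sum]
        _ ≤ δ' * (X * (2 * ((3 * C) ^ M * ∏ i, (X * V i)))) := by
            apply mul_le_mul_of_nonneg_left _ hδ'0.le
            exact mul_le_mul_of_nonneg_left hFM hX0.le
        _ = X / 2 * (δ ^ M * ∏ i, (X * V i)) := by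
            rw [hδ', div_pow]
            field_simp
            ring
        _ ≤ X / 2 * P₁ := mul_le_mul_of_nonneg_left hXV (by positivity)
        _ = X * P₁ / 2 := by ring
    have h2 := sum_filter_add_sum_filter_not pi (fun s => (T s).Nonempty ∧
      δ' * (X * VV (ZC Z s) 0 X) ≤ ((T s).card : ℝ)) (fun s => ((T s).card : ℝ))
    rw [hsumT, ← hGd] at h2
    linarith
  have hGdle : ∑ s ∈ Gd, ((T s).card : ℝ) ≤ X * P₁ := by
    rw [← hsumT, hGd]
    exact sum_le_sum_of_subset_of_nonneg (filter_subset _ _) (fun _ _ _ => Nat.cast_nonneg _)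
  have hGdmem : ∀ s ∈ Gd, s ∈ pi ∧ (T s).Nonempty ∧ δ' * (X * VV (ZC Z s) 0 X) ≤ ((T s).card : ℝ) := by
    intro s hs
    rw [hGd] at hs
    exact mem_filter.1 hs
  -- the differences for the good shifts
  have hex : ∀ s : Fin M → ℕ, ∃ G : Finset (Fin m → ℕ), s ∈ Gd →
      (G ⊆ Fintype.piFinset (fun _ : Fin m => Icc 1 D) ∧ c₁ * (D : ℝ) ^ m ≤ (G.card : ℝ) ∧ ∀ d ∈ G,
      ∀ F : Finset (Fin m → ℕ), (∀ f ∈ F, ∀ i, f i < k) → (fun _ => 0) ∈ F →
      (pat d F).card = F.card ∧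
      (∀ q : ℕ, q.Prime → q ≤ X → (ZP (ZC Z s) d F q).card < q) ∧
      c₁ * (X * VV (ZP (ZC Z s) d F) 0 X) ≤
        (((T s).filter (fun n => ∀ f ∈ F, n + ∑ i, f i * d i ∈ T s)).card : ℝ)) := by
    intro s
    by_cases hs : s ∈ Gd
    · obtain ⟨-, h2, h3⟩ := hGdmem s hs
      obtain ⟨G, g1, g2, g3⟩ := hG X 0 D x5 hBD hDX (ZC Z s) (hOK s h2) (T s) (hTsub s) (hAvT s) h3
      exact ⟨G, fun _ => ⟨g1, g2, g3⟩⟩
    · exact ⟨∅, fun h => absurd h hs⟩
  choose Gs hGs using hex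
  obtain ⟨w, hw⟩ : ∃ w : (Fin m → ℕ) → ℝ, w = fun d => ∑ s ∈ Gd, (if d ∈ Gs s then ((T s).card : ℝ) else 0) := ⟨_, rfl⟩
  obtain ⟨U, hUd⟩ : ∃ U : Finset (Fin m → ℕ), U = Fintype.piFinset (fun _ : Fin m => Icc 1 D) := ⟨_, rfl⟩
  have hUc : (U.card : ℝ) = (D : ℝ) ^ m := by
    rw [hUd, Fintype.card_piFinset, prod_const, card_univ, Fintype.card_fin, Nat.card_Icc, Nat.add_sub_cancel]
    push_cast
    rfl
  rw [← hUd]
  refine ⟨U.filter (fun d => c₁ / 4 * (X * P₁) ≤ w d), filter_subset _ _, ?_, ?_⟩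
  · have h1 : c₁ * (D : ℝ) ^ m * (X * P₁ / 2) ≤ ∑ d ∈ U, w d := by
      have h2 : ∑ d ∈ U, w d = ∑ s ∈ Gd, ((Gs s).card : ℝ) * ((T s).card : ℝ) := by
        rw [hw]
        simp only
        rw [sum_comm]
        refine sum_congr rfl fun s hs => ?_
        rw [← sum_filter, sum_const, nsmul_eq_mul]
        have h3 : U.filter (fun d => d ∈ Gs s) = Gs s := by
          ext d
          rw [mem_filter]
          refine ⟨fun h => h.2, fun h => ⟨?_, h⟩⟩
          rw [hUd]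
          exact (hGs s hs).1 h
        rw [h3]
      rw [h2]
      calc c₁ * (D : ℝ) ^ m * (X * P₁ / 2) ≤ c₁ * (D : ℝ) ^ m * ∑ s ∈ Gd, ((T s).card : ℝ) :=
            mul_le_mul_of_nonneg_left hgood (by positivity)
        _ = ∑ s ∈ Gd, c₁ * (D : ℝ) ^ m * ((T s).card : ℝ) := by rw [mul_sum]
        _ ≤ _ := sum_le_sum fun s hs => mul_le_mul_of_nonneg_right (hGs s hs).2.1 (Nat.cast_nonneg _)
    have h2 : ∑ d ∈ U, w d ≤ ((U.filter (fun d => c₁ / 4 * (X * P₁) ≤ w d)).card : ℝ) * (X * P₁) +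
        (D : ℝ) ^ m * (c₁ / 4 * (X * P₁)) := by
      rw [← sum_filter_add_sum_filter_not U (fun d => c₁ / 4 * (X * P₁) ≤ w d)]
      apply add_le_add
      · refine le_trans (sum_le_card_nsmul _ _ (X * P₁) ?_) (le_of_eq (nsmul_eq_mul _ _))
        intro d _
        refine le_trans ?_ hGdle
        rw [hw]
        apply sum_le_sum
        intro s _
        split_ifs
        · exact le_rfl
        · exact Nat.cast_nonneg _
      · rw [← hUc]
        calc ∑ d ∈ U.filter (fun d => ¬ c₁ / 4 * (X * P₁) ≤ w d), w d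
            ≤ ∑ d ∈ U.filter (fun d => ¬ c₁ / 4 * (X * P₁) ≤ w d), c₁ / 4 * (X * P₁) :=
              sum_le_sum fun d hd => (not_le.1 (mem_filter.1 hd).2).le
          _ ≤ ∑ d ∈ U, c₁ / 4 * (X * P₁) :=
              sum_le_sum_of_subset_of_nonneg (filter_subset _ _) (fun _ _ _ => by positivity)
          _ = _ := by rw [sum_const, nsmul_eq_mul]
    have h3 : 0 < (X : ℝ) * P₁ := by positivity
    have h4 : c₁ / 4 * (D : ℝ) ^ m * (X * P₁) ≤
        ((U.filter (fun d => c₁ / 4 * (X * P₁) ≤ w d)).card : ℝ) * (X * P₁) := by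
      have : c₁ * (D : ℝ) ^ m * (X * P₁ / 2) = c₁ / 4 * (D : ℝ) ^ m * (X * P₁) + (D : ℝ) ^ m * (c₁ / 4 * (X * P₁)) := by
        ring
      linarith
    have h5 := le_of_mul_le_mul_right h4 h3
    refine le_trans ?_ h5
    exact mul_le_mul_of_nonneg_right (min_le_left _ _) (by positivity)
  · intro d hd F hF h0
    rw [mem_filter] at hd
    have hwd := hd.2
    obtain ⟨Q, hQ⟩ : ∃ Q : Finset (Fin M → ℕ), Q = Gd.filter (fun s => d ∈ Gs s) := ⟨_, rfl⟩
    have hwQ : w d = ∑ s ∈ Q, ((T s).card : ℝ) := by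
      rw [hw, hQ, sum_filter]
    have hQne : Q.Nonempty := by
      rw [nonempty_iff_ne_empty]
      intro h
      rw [hwQ, h, sum_empty] at hwd
      have : 0 < c₁ / 4 * ((X : ℝ) * P₁) := by positivity
      linarith
    have hQmem : ∀ s ∈ Q, s ∈ Gd ∧ d ∈ Gs s := fun s hs => by rw [hQ] at hs; exact mem_filter.1 hs
    obtain ⟨s₀, hs₀⟩ := hQne
    obtain ⟨hs₀1, hs₀2⟩ := hQmem s₀ hs₀
    obtain ⟨p1, p2, -⟩ := (hGs s₀ hs₀1).2.2 d hs₀2 F hF h0
    have hcardlt : ∀ i, ∀ q : ℕ, q.Prime → q ≤ X → (ZP (Z i) d F q).card < q := by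
      intro i q hq hqX
      have h1 := p2 q hq hqX
      rw [ZP_ZC] at h1
      exact lt_of_le_of_lt (card_le_ZC (fun i => ZP (Z i) d F) s₀ hq.pos i (ZP_lt (Z i) d F q)) h1
    have hFc : F.card ≤ k ^ m := by
      have h7 : F ⊆ Fintype.piFinset (fun _ : Fin m => range k) := by
        intro f hf
        rw [Fintype.mem_piFinset]
        exact fun i => mem_range.2 (hF f hf i)
      have h8 := card_le_card h7
      rwa [Fintype.card_piFinset, prod_const, card_univ, Fintype.card_fin, card_range] at h8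
    have hcardr' : ∀ i, ∀ q : ℕ, q.Prime → q ≤ X → (ZP (Z i) d F q).card ≤ k ^ m * r := by
      intro i q hq hqX
      refine (ZP_card_le (Z i) d F hq.pos).trans ?_
      exact Nat.mul_le_mul hFc (hZ i q hq (by rw [Real.rpow_one]; exact_mod_cast hqX)).1
    have hOKF : ∀ i, OK (k ^ m * r) 1 X (ZP (Z i) d F) := by
      intro i q hq hqX
      rw [Real.rpow_one] at hqX
      have hqX' : q ≤ X := by exact_mod_cast hqX
      exact ⟨hcardr' i q hq hqX', hcardlt i q hq hqX', ZP_lt (Z i) d F q⟩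
    obtain ⟨VF, hVF⟩ : ∃ VF : Fin M → ℝ, VF = fun i => VV (ZP (Z i) d F) 0 X := ⟨_, rfl⟩
    have hVF0 : ∀ i, 0 < VF i := fun i => by rw [hVF]; exact VV_pos (hOKF i)
    obtain ⟨S', hS'⟩ : ∃ S' : Fin M → Finset ℕ, S' = fun i => (S i).filter (fun n => ∀ f ∈ F, n + ∑ j, f j * d j ∈ S i) :=
      ⟨_, rfl⟩
    have hS'sub : ∀ i, S' i ⊆ S i := fun i => by rw [hS']; exact filter_subset _ _
    have hS'up : ∀ i, ((S' i).card : ℝ) ≤ C'' * (X * VF i) := by
      intro i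
      rw [hVF]
      apply hU'' X (A i) x4 (ZP (Z i) d F) (hOKF i) (S' i) ((hS'sub i).trans (hS i))
      intro n hn p hp hpX hcon
      rw [hS', mem_filter] at hn
      unfold Pool.Agent.X26.GP.ZP at hcon
      rw [mem_filter] at hcon
      obtain ⟨-, f, hf, hfc⟩ := hcon
      rw [Nat.mod_add_mod] at hfc
      exact Av_mono x8 hκ'κ (hSZ i _ (hn.2 f hf)) p hp hpX hfc
    have hsum' := hcount S' hS'sub
    -- the lower bound for the sum
    have hlow : ∀ s ∈ Q, c₁ * c₂ / C' * (∏ i, VF i) * ((T s).card : ℝ) ≤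
        ((((Ioc 0 X).filter (fun n => ∀ i, n + s i ∈ S' i)).card : ℕ) : ℝ) * ∏ i, V i := by
      intro s hs
      obtain ⟨q1, q2⟩ := hQmem s hs
      obtain ⟨-, q3, q4⟩ := (hGs s q1).2.2 d q2 F hF h0
      obtain ⟨-, q5, -⟩ := hGdmem s q1
      have h1 := hVc M m Z s d F X h0 q3 hZlt (by
        intro q hq hqX
        refine (sum_le_sum fun i _ => hcardr' i q hq hqX).trans ?_
        rw [sum_const, card_univ, Fintype.card_fin, smul_eq_mul])
      have h2 := hU' X 0 x3 (ZC Z s) (hOK s q5) (T s) (hTsub s) (hAvT s)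
      have h3 : (((T s).filter (fun n => ∀ f ∈ F, n + ∑ i, f i * d i ∈ T s)).card : ℝ) ≤
          ((((Ioc 0 X).filter (fun n => ∀ i, n + s i ∈ S' i)).card : ℕ) : ℝ) := by
        refine Nat.cast_le.2 (card_le_card ?_)
        intro n hn
        rw [mem_filter] at hn
        have h4 := (hTmem s n).1 hn.1
        rw [mem_filter]
        refine ⟨h4.1, fun i => ?_⟩
        rw [hS', mem_filter]
        refine ⟨h4.2 i, fun f hf => ?_⟩
        have h5 := ((hTmem s _).1 (hn.2 f hf)).2 i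
        have e : n + s i + ∑ j, f j * d j = n + ∑ j, f j * d j + s i := by ring
        rw [e]
        exact h5
      have hVC0 := VV_pos (hOK s q5)
      have hPF0 : 0 < ∏ i, VF i := prod_pos fun i _ => hVF0 i
      have hPV0 : 0 < ∏ i, V i := prod_pos fun i _ => hV0 i
      have h1' : c₂ * (VV (ZC Z s) 0 X * ∏ i, VF i) ≤ VV (ZP (ZC Z s) d F) 0 X * ∏ i, V i := by
        rw [hVF, hVd]
        exact h1
      calc c₁ * c₂ / C' * (∏ i, VF i) * ((T s).card : ℝ)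
          ≤ c₁ * c₂ / C' * (∏ i, VF i) * (C' * (X * VV (ZC Z s) 0 X)) :=
            mul_le_mul_of_nonneg_left h2 (by positivity)
        _ = c₁ * X * (c₂ * (VV (ZC Z s) 0 X * ∏ i, VF i)) := by
            field_simp
        _ ≤ c₁ * X * (VV (ZP (ZC Z s) d F) 0 X * ∏ i, V i) := mul_le_mul_of_nonneg_left h1' (by positivity)
        _ = c₁ * (X * VV (ZP (ZC Z s) d F) 0 X) * ∏ i, V i := by ring
        _ ≤ _ := mul_le_mul_of_nonneg_right (q4.trans h3) hPV0.le
    have hPF0 : 0 < ∏ i, VF i := prod_pos fun i _ => hVF0 i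
    have hPV0 : 0 < ∏ i, V i := prod_pos fun i _ => hV0 i
    have htot : c₁ * c₂ / C' * (∏ i, VF i) * w d ≤ (X * ∏ i, ((S' i).card : ℝ)) * ∏ i, V i := by
      rw [hwQ, mul_sum]
      refine (sum_le_sum hlow).trans ?_
      rw [← sum_mul, ← hsum']
      apply mul_le_mul_of_nonneg_right _ hPV0.le
      apply sum_le_sum_of_subset_of_nonneg
      · intro s hs
        exact (hGdmem s (hQmem s hs).1).1
      · intro _ _ _
        exact Nat.cast_nonneg _
    have hmain : c₃ * ∏ i, (X * VF i) ≤ ∏ i, ((S' i).card : ℝ) := by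
      have h1 : c₁ * c₂ / C' * (∏ i, VF i) * (c₁ / 4 * (X * (δ ^ M * ∏ i, (X * V i)))) ≤
          (X * ∏ i, ((S' i).card : ℝ)) * ∏ i, V i := by
        refine le_trans ?_ htot
        apply mul_le_mul_of_nonneg_left _ (by positivity)
        refine le_trans ?_ hwd
        apply mul_le_mul_of_nonneg_left _ (by positivity)
        exact mul_le_mul_of_nonneg_left hXV hX0.le
      have e1 : ∏ i, ((X : ℝ) * V i) = (X : ℝ) ^ M * ∏ i, V i := by
        rw [prod_mul_distrib, prod_const, card_univ, Fintype.card_fin]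
      have e2 : ∏ i, ((X : ℝ) * VF i) = (X : ℝ) ^ M * ∏ i, VF i := by
        rw [prod_mul_distrib, prod_const, card_univ, Fintype.card_fin]
      rw [e1] at h1
      rw [e2]
      have h2 : (c₃ * ((X : ℝ) ^ M * ∏ i, VF i)) * (X * ∏ i, V i) ≤ (∏ i, ((S' i).card : ℝ)) * (X * ∏ i, V i) := by
        calc (c₃ * ((X : ℝ) ^ M * ∏ i, VF i)) * (X * ∏ i, V i)
            = c₁ * c₂ / C' * (∏ i, VF i) * (c₁ / 4 * (X * (δ ^ M * ((X : ℝ) ^ M * ∏ i, V i)))) := by
              rw [hc₃]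
              field_simp
          _ ≤ _ := h1
          _ = _ := by ring
      exact le_of_mul_le_mul_right h2 (by positivity)
    refine ⟨p1, fun i => ⟨hcardlt i, ?_⟩⟩
    have e1 : ∏ j, ((S' j).card : ℝ) = ((S' i).card : ℝ) * ∏ j ∈ univ.erase i, ((S' j).card : ℝ) :=
      (mul_prod_erase univ _ (mem_univ i)).symm
    have e2 : ∏ j, ((X : ℝ) * VF j) = (X * VF i) * ∏ j ∈ univ.erase i, ((X : ℝ) * VF j) :=
      (mul_prod_erase univ _ (mem_univ i)).symm
    have h1 : ∏ j ∈ univ.erase i, ((S' j).card : ℝ) ≤ C'' ^ M * ∏ j ∈ univ.erase i, ((X : ℝ) * VF j) := by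
      calc ∏ j ∈ univ.erase i, ((S' j).card : ℝ) ≤ ∏ j ∈ univ.erase i, (C'' * (X * VF j)) :=
            Finset.prod_le_prod (fun j _ => Nat.cast_nonneg _) fun j _ => hS'up j
        _ = C'' ^ (univ.erase i).card * ∏ j ∈ univ.erase i, ((X : ℝ) * VF j) := by
            rw [prod_mul_distrib, prod_const]
        _ ≤ _ := by
            apply mul_le_mul_of_nonneg_right
            · apply pow_le_pow_right₀ hC''1
              refine (card_le_card (erase_subset _ _)).trans ?_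
              rw [card_univ, Fintype.card_fin]
            · exact prod_nonneg fun j _ => by have := hVF0 j; positivity
    have hR0 : 0 < ∏ j ∈ univ.erase i, ((X : ℝ) * VF j) := prod_pos fun j _ => by have := hVF0 j; positivity
    have h2 : (c₃ * (X * VF i)) * ∏ j ∈ univ.erase i, ((X : ℝ) * VF j) ≤
        (((S' i).card : ℝ) * C'' ^ M) * ∏ j ∈ univ.erase i, ((X : ℝ) * VF j) := by
      rw [e1, e2] at hmain
      calc (c₃ * (X * VF i)) * ∏ j ∈ univ.erase i, ((X : ℝ) * VF j)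
          = c₃ * ((X * VF i) * ∏ j ∈ univ.erase i, ((X : ℝ) * VF j)) := by ring
        _ ≤ _ := hmain
        _ ≤ ((S' i).card : ℝ) * (C'' ^ M * ∏ j ∈ univ.erase i, ((X : ℝ) * VF j)) :=
            mul_le_mul_of_nonneg_left h1 (Nat.cast_nonneg _)
        _ = _ := by ring
    have h3 := le_of_mul_le_mul_right h2 hR0
    have h4 : c₃ / C'' ^ M * (X * VF i) ≤ ((S' i).card : ℝ) := by
      rw [div_mul_eq_mul_div, div_le_iff₀ (by positivity)]
      exact h3
    have h5 : min (c₁ / 4) (c₃ / C'' ^ M) * (X * VF i) ≤ c₃ / C'' ^ M * (X * VF i) :=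
      mul_le_mul_of_nonneg_right (min_le_right _ _) (by have := hVF0 i; positivity)
    have h6 := h5.trans h4
    rw [hVF, hS'] at h6
    exact h6

open Classical in
/-- **all patterns in several dense sets**: for dense subsets `S i` of sifted sets in windows `(A i, A i + X]` the same
vectors of differences serve for all `i` -/
theorem multi (M m k r : ℕ) {κ δ : ℝ} (hκ : 0 < κ) (hκ1 : κ ≤ 1) (hδ : 0 < δ) : ∃ c : ℝ, 0 < c ∧ ∃ B X₀ : ℕ,
    ∀ X D : ℕ, X₀ ≤ X → Real.log X ^ B ≤ D → D ≤ X → ∀ (A : Fin M → ℕ) (Z : Fin M → ℕ → Finset ℕ)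
    (S : Fin M → Finset ℕ), (∀ i, OK r 1 X (Z i)) → (∀ i, S i ⊆ Ioc (A i) (A i + X)) →
    (∀ i, ∀ n ∈ S i, Av κ X (Z i) n) → (∀ i, δ * (X * VV (Z i) 0 X) ≤ ((S i).card : ℝ)) →
    ∃ G ⊆ Fintype.piFinset (fun _ : Fin m => Icc 1 D), c * (D : ℝ) ^ m ≤ (G.card : ℝ) ∧ ∀ d ∈ G,
      ∀ F : Finset (Fin m → ℕ), (∀ f ∈ F, ∀ i, f i < k) → (fun _ => 0) ∈ F →
      (pat d F).card = F.card ∧ ∀ i,
      (∀ q : ℕ, q.Prime → q ≤ X → (ZP (Z i) d F q).card < q) ∧
      c * (X * VV (ZP (Z i) d F) 0 X) ≤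
        (((S i).filter (fun n => ∀ f ∈ F, n + ∑ j, f j * d j ∈ S i)).card : ℝ) := by
  obtain ⟨c, hc, B, X₀, h⟩ := multi0 M m k r hκ hκ1 hδ
  refine ⟨c, hc, B, max X₀ 1, ?_⟩
  intro X D hX hBD hDX A Z S hZ hS hSZ hSc
  have x1 : X₀ ≤ X := (le_max_left _ _).trans hX
  have x2 : 1 ≤ X := (le_max_right _ _).trans hX
  obtain ⟨t, ht⟩ : ∃ t : ℕ, t = Nat.factorial X := ⟨_, rfl⟩
  have htX : X ≤ t := by rw [ht]; exact Nat.self_le_factorial X
  have hinj : Function.Injective (fun n : ℕ => n + t) := fun a b hab => by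
    have hab' : a + t = b + t := hab
    omega
  have hmem : ∀ i a, a + t ∈ (S i).image (fun n => n + t) ↔ a ∈ S i := by
    intro i a
    rw [mem_image]
    constructor
    · rintro ⟨b, hb, hab⟩
      have : b = a := by omega
      rwa [← this]
    · intro ha
      exact ⟨a, ha, rfl⟩
  obtain ⟨G, g1, g2, g3⟩ := h X D x1 hBD hDX (fun i => A i + t) Z (fun i => (S i).image (fun n => n + t))
    (fun i => by show X ≤ A i + t; omega) hZ (by
      intro i a ha
      rw [mem_image] at ha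
      obtain ⟨b, hb, rfl⟩ := ha
      have := mem_Ioc.1 (hS i hb)
      show b + t ∈ Ioc (A i + t) (A i + t + X)
      rw [mem_Ioc]
      omega) (by
      intro i a ha
      rw [mem_image] at ha
      obtain ⟨b, hb, rfl⟩ := ha
      intro p hp hpX
      have hpX' : p ≤ X := by
        have h1 : (p : ℝ) ≤ X := by
          refine hpX.trans ?_
          calc (X : ℝ) ^ κ ≤ (X : ℝ) ^ (1 : ℝ) :=
                Real.rpow_le_rpow_of_exponent_le (by exact_mod_cast x2) hκ1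
            _ = X := Real.rpow_one _
        exact_mod_cast h1
      have h2 : p ∣ t := by rw [ht]; exact Nat.dvd_factorial hp.pos hpX'
      obtain ⟨e, he⟩ := h2
      show (b + t) % p ∉ Z i p
      rw [he, Nat.add_mul_mod_self_left]
      exact hSZ i b hb p hp hpX) (by
      intro i
      rw [card_image_of_injective _ hinj]
      exact hSc i)
  refine ⟨G, g1, g2, fun d hd F hF h0 => ?_⟩
  obtain ⟨k1, k2⟩ := g3 d hd F hF h0
  refine ⟨k1, fun i => ⟨(k2 i).1, (k2 i).2.trans (Nat.cast_le.2 ?_)⟩⟩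
  rw [← card_image_of_injective ((S i).filter (fun n => ∀ f ∈ F, n + ∑ j, f j * d j ∈ S i)) hinj]
  apply card_le_card
  intro a ha
  rw [mem_filter] at ha
  have ha1 := ha.1
  rw [mem_image] at ha1
  obtain ⟨b, hb, rfl⟩ := ha1
  rw [mem_image]
  refine ⟨b, mem_filter.2 ⟨hb, fun f hf => ?_⟩, rfl⟩
  have h2 := ha.2 f hf
  have e : b + t + ∑ j, f j * d j = b + ∑ j, f j * d j + t := by ring
  simp only [e] at h2
  exact (hmem i _).1 h2

end Pool.Agent.X26.MC
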