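import Pool.Agent.X26.MC.Main
import Pool.Agent.X26.GP.Poly

/-!
# Common patterns of several dense sets of arguments of polynomials
-/

set_option autoImplicit false

namespace Pool.Agent.X26.MC

open Finset
open Pool.Agent.Y843.HS
open Pool.Agent.Y843.AC (OK Av)
open Pool.Agent.X26.GP (ZP ZP_card_le Zf NF mem_Zf_mod Zf_card_le OK_Zf om om_eq PX PX_eq RV rough_poly length_le Alm
  pat)

open Classical in
/-- **common patterns, for values of several polynomials** -/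
theorem polyM (M m k r : ℕ) {κ δ : ℝ} (hκ : 0 < κ) (hκ1 : κ ≤ 1) (hδ : 0 < δ) : ∃ c : ℝ, 0 < c ∧ ∃ B X₀ : ℕ,
    ∀ X D : ℕ, X₀ ≤ X → Real.log X ^ B ≤ D → D ≤ X → ∀ (A : Fin M → ℕ) (f : Fin M → Polynomial ℤ),
    (∀ i, (f i).natDegree ≤ r) → (∀ i, NF (f i)) → ∀ S : Fin M → Finset ℕ, (∀ i, S i ⊆ Ioc (A i) (A i + X)) →
    (∀ i, ∀ n ∈ S i, ∀ q : ℕ, q.Prime → (q : ℝ) ≤ (X : ℝ) ^ κ → ¬ (q : ℤ) ∣ (f i).eval (n : ℤ)) →
    (∀ i, δ * (X * PX (fun q => (Zf (f i) q).card) X) ≤ ((S i).card : ℝ)) →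
    ∃ G ⊆ Fintype.piFinset (fun _ : Fin m => Icc 1 D), c * (D : ℝ) ^ m ≤ (G.card : ℝ) ∧ ∀ d ∈ G,
      ∀ F : Finset (Fin m → ℕ), (∀ g ∈ F, ∀ i, g i < k) → (fun _ => 0) ∈ F →
      (pat d F).card = F.card ∧ ∀ i, (∀ q : ℕ, q.Prime → om (f i) d F q < q) ∧
      c * (X * PX (om (f i) d F) X) ≤
        (((S i).filter (fun n => ∀ g ∈ F, n + ∑ j, g j * d j ∈ S i)).card : ℝ) := by
  obtain ⟨c, hc, B, X₁, h1⟩ := multi M m k r hκ hκ1 hδ
  refine ⟨c, hc, B, max X₁ (r * k ^ m), ?_⟩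
  intro X D hX hBD hDX A f hfr hf S hSA hSZ hSc
  obtain ⟨G, hG1, hG2, hG3⟩ := h1 X D ((le_max_left _ _).trans hX) hBD hDX A (fun i => Zf (f i)) S
    (fun i => OK_Zf (hf i) (hfr i) 1 X) hSA (fun i n hn q hq hqX => by
      rw [mem_Zf_mod hq.pos]
      exact hSZ i n hn q hq hqX) (fun i => by
      have := hSc i
      rwa [← PX_eq (Zf (f i)) (fun q => (Zf (f i) q).card) (fun _ _ => rfl)] at this)
  refine ⟨G, hG1, hG2, fun d hd F hF h0 => ?_⟩
  obtain ⟨g1, g23⟩ := hG3 d hd F hF h0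
  refine ⟨g1, fun i => ?_⟩
  obtain ⟨g2, g3⟩ := g23 i
  refine ⟨?_, ?_⟩
  · intro q hq
    rw [← om_eq (f i) d F hq.pos]
    rcases le_or_gt q X with h2 | h2
    · exact g2 q hq h2
    · have h4 := ZP_card_le (Zf (f i)) d F hq.pos
      have h5 : (Zf (f i) q).card ≤ r := (Zf_card_le (hf i) hq).trans (hfr i)
      have h6 : F.card ≤ k ^ m := by
        have h7 : F ⊆ Fintype.piFinset (fun _ : Fin m => range k) := by
          intro g hg
          rw [Fintype.mem_piFinset]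
          exact fun i => mem_range.2 (hF g hg i)
        have h8 := card_le_card h7
        rwa [Fintype.card_piFinset, prod_const, card_univ, Fintype.card_fin, card_range] at h8
      have h7 : (ZP (Zf (f i)) d F q).card ≤ r * k ^ m := by
        refine h4.trans ?_
        rw [mul_comm r]
        exact Nat.mul_le_mul h6 h5
      have h8 : r * k ^ m ≤ X := (le_max_right _ _).trans hX
      omega
  · rw [← PX_eq (ZP (Zf (f i)) d F) (om (f i) d F) (fun q hq => om_eq (f i) d F hq.pos)]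
    exact g3

open Classical in
/-- the `n` in `(A, A + X]` for which `|f n|` is a product of at most `j` primes, all larger than `X ^ (1 / j)` -/
noncomputable def AV (f : Polynomial ℤ) (j A X : ℕ) : Finset ℕ :=
  (Ioc A (A + X)).filter (fun n => Alm j X (f.eval (n : ℤ)).natAbs)

/-- lower bound for the number of almost prime values in short windows -/
theorem lowP (r : ℕ) (h : ℝ) : ∃ j : ℕ, 1 ≤ j ∧ ∃ X₀ : ℕ, ∀ X A : ℕ, X₀ ≤ X → ∀ f : Polynomial ℤ,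
    f.natDegree ≤ r → NF f → (∀ n ∈ Ioc A (A + X), |((f.eval (n : ℤ) : ℤ) : ℝ)| ≤ (X : ℝ) ^ h) →
    1 / 2 * (X * PX (fun q => (Zf f q).card) X) ≤ ((AV f j A X).card : ℝ) := by
  classical
  obtain ⟨κ, hκ, hκ1, hR⟩ := rough_poly r
  obtain ⟨X₁, hX₁⟩ := hR κ hκ le_rfl
  obtain ⟨j, hj⟩ : ∃ j : ℕ, j = ⌈h / κ⌉₊ + ⌈1 / κ⌉₊ + 1 := ⟨_, rfl⟩
  have hj1 : h / κ ≤ j := by
    have := Nat.le_ceil (h / κ)
    have h2 : (0 : ℝ) ≤ (⌈1 / κ⌉₊ : ℝ) := Nat.cast_nonneg _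
    rw [hj]
    push_cast
    linarith
  have hj2 : 1 / κ ≤ j := by
    have := Nat.le_ceil (1 / κ)
    have h2 : (0 : ℝ) ≤ (⌈h / κ⌉₊ : ℝ) := Nat.cast_nonneg _
    rw [hj]
    push_cast
    linarith
  have hj0 : (0 : ℝ) < j := by exact_mod_cast (show 0 < j by omega)
  have hj3 : 1 / (j : ℝ) ≤ κ := by
    rw [div_le_iff₀ hκ] at hj2
    rw [div_le_iff₀ hj0]
    linarith
  obtain ⟨X₃, hX₃⟩ := log_ge (Real.log 2 / κ)
  refine ⟨j, by omega, max X₁ (max X₃ 2), ?_⟩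
  intro X A hX f hfr hf hfh
  have hX1 : X₁ ≤ X := (le_max_left _ _).trans hX
  have hX3 : 2 ≤ X := (le_max_right _ _).trans ((le_max_right _ _).trans hX)
  have hX1' : (1 : ℝ) ≤ X := by exact_mod_cast (show 1 ≤ X by omega)
  have hXκ : (2 : ℝ) ≤ (X : ℝ) ^ κ := by
    have h1 := hX₃ X ((le_max_left _ _).trans ((le_max_right _ _).trans hX))
    rw [div_le_iff₀ hκ] at h1
    rw [Real.rpow_def_of_pos (by linarith), ← Real.log_le_iff_le_exp (by norm_num)]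
    exact h1
  refine (hX₁ X A hX1 f hfr hf).trans (Nat.cast_le.2 (card_le_card ?_))
  intro n hn
  unfold RV at hn
  rw [mem_filter] at hn
  unfold AV
  rw [mem_filter]
  refine ⟨hn.1, ?_⟩
  have h3 : ∀ q : ℕ, q.Prime → q ∣ (f.eval (n : ℤ)).natAbs → (X : ℝ) ^ κ < q := by
    intro q hq hqd
    by_contra hcon
    rw [not_lt] at hcon
    exact hn.2 q hq hcon (Int.natCast_dvd.2 hqd)
  have h4 : (f.eval (n : ℤ)).natAbs ≠ 0 := by
    intro h0
    have h5 := h3 2 Nat.prime_two (by rw [h0]; exact dvd_zero _)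
    push_cast at h5
    linarith
  refine ⟨h4, ?_, ?_⟩
  · have h5 := length_le hX3 hκ h4 (h := h) (by
      have := hfh n hn.1
      rw [Nat.cast_natAbs]
      push_cast
      exact this) h3
    have h6 := h5.trans hj1
    exact_mod_cast h6
  · intro q hq hqd
    refine lt_of_le_of_lt ?_ (h3 q hq hqd)
    exact Real.rpow_le_rpow_of_exponent_le hX1' hj3

open Classical in
/-- **common patterns in dense sets of almost prime values** -/
theorem avM (M m k r j : ℕ) (hj : 1 ≤ j) {δ : ℝ} (hδ : 0 < δ) : ∃ c : ℝ, 0 < c ∧ ∃ B X₀ : ℕ,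
    ∀ X D : ℕ, X₀ ≤ X → Real.log X ^ B ≤ D → D ≤ X → ∀ (A : Fin M → ℕ) (f : Fin M → Polynomial ℤ),
    (∀ i, (f i).natDegree ≤ r) → (∀ i, NF (f i)) → ∀ S : Fin M → Finset ℕ, (∀ i, S i ⊆ AV (f i) j (A i) X) →
    (∀ i, δ * (X * PX (fun q => (Zf (f i) q).card) X) ≤ ((S i).card : ℝ)) →
    ∃ G ⊆ Fintype.piFinset (fun _ : Fin m => Icc 1 D), c * (D : ℝ) ^ m ≤ (G.card : ℝ) ∧ ∀ d ∈ G,
      ∀ F : Finset (Fin m → ℕ), (∀ g ∈ F, ∀ i, g i < k) → (fun _ => 0) ∈ F →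
      (pat d F).card = F.card ∧ ∀ i, (∀ q : ℕ, q.Prime → om (f i) d F q < q) ∧
      c * (X * PX (om (f i) d F) X) ≤
        (((S i).filter (fun n => ∀ g ∈ F, n + ∑ j, g j * d j ∈ S i)).card : ℝ) := by
  have hj0 : (0 : ℝ) < j := by exact_mod_cast hj
  obtain ⟨c, hc, B, X₀, h⟩ := polyM M m k r (κ := 1 / (j : ℝ)) (by positivity)
    (by rw [div_le_one hj0]; exact_mod_cast hj) hδ
  refine ⟨c, hc, B, X₀, fun X D hX hBD hDX A f hfr hf S hS hSc => ?_⟩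
  refine h X D hX hBD hDX A f hfr hf S (fun i => (hS i).trans (by unfold AV; exact filter_subset _ _)) ?_ hSc
  intro i n hn q hq hqX hd
  have h1 := hS i hn
  unfold AV at h1
  rw [mem_filter] at h1
  have h2 := h1.2.2.2 q hq (Int.natCast_dvd.1 hd)
  linarith

end Pool.Agent.X26.MC
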